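import Pool.Agent.V11163.ZG.Emb
import Pool.Agent.TH700.PA.Parts
import Mathlib.Combinatorics.Hall.Basic

/-!
# Counting the words recognized by a network without grids
-/

set_option autoImplicit false

open Finset Classical

namespace Pool.Agent.V11163.ZG

open Pool.Agent.TH700.PA
open Pool.Agent.V11163.ZK (Tri TriS TriN mix_left mix_right cpl mem_cpl cutV_compl triS_of_cut
  few_parts mix_compl size_reads)

variable {V Al K W : Type}

theorem triS_mono {P : (V → Al) → Prop} {w w' : ℕ} {B : Finset V} (h : TriS P w B) (hw : w ≤ w') :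
    TriS P w' B := fun k z h1 h2 => (h k z h1 h2).trans hw

theorem tri_of_rk [Fintype V] [Field K] {f : (V → Al) → K} {d : ℕ} {A : Finset V} (h : Rk d f A) :
    TriS (fun z => f z ≠ 0) d A ∧ TriS (fun z => f z ≠ 0) d (cpl A) := by
  obtain ⟨J, i, g, H, h0, h1, h2, h3⟩ := h
  have hc : CutV J f A := ⟨g, H, h1, h2, h3⟩
  exact ⟨triS_mono (triS_of_cut hc) h0, triS_mono (triS_of_cut (cutV_compl hc)) h0⟩

/-- A grid in the set of words with the property `P`; the letter `v` belongs to the word `cls v`. -/
def HasGrid (r a : ℕ) (cls : V → ℕ) (P : (V → Al) → Prop) : Prop :=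
  ∃ ψ : (ℕ → Fin a) → (V → Al), (∀ u, P (ψ u)) ∧
    (∀ u u', (∃ i < r, u i ≠ u' i) → ψ u ≠ ψ u') ∧
    ∀ u u' v, (∀ i, i ≠ cls v → u i = u' i) → ψ u v = ψ u' v

theorem grid_of_box {P : (V → Al) → Prop} {E' : Finset (V → Al)} (hE : ∀ z ∈ E', P z)
    {a r : ℕ} {cls : V → ℕ} {D : ℕ → Finset V} (hD : Dis D r) (hcls : ∀ i, ∀ v ∈ D i, cls v ≠ i)
    {zc z0 : V → Al} (h : Box a r (TT D zc r E' z0)) : HasGrid r a cls P := by
  have : Nonempty (V → Al) := ⟨zc⟩
  obtain ⟨g, hg1, hg2⟩ := box_fun h
  have hcan : ∀ u, can D zc r (mk g u r) ∧ ov D r (mk g u r) z0 ∈ E' := fun u =>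
    (mem_TT hD).1 (hg2 u)
  refine ⟨fun u => ov D r (mk g u r) z0, fun u => hE _ (hcan u).2, ?_, ?_⟩
  · rintro u u' ⟨i, hi, hne⟩ heq
    apply hne
    apply hg1 i hi
    have c1 := can_mk (hcan u).1 i hi
    have c2 := can_mk (hcan u').1 i hi
    funext v
    by_cases hv : v ∈ D i
    · have := congrFun heq v
      simp only at this
      rwa [ov_mk_in hD hi hv, ov_mk_in hD hi hv] at this
    · rw [← c1, ← c2, mix_out hv, mix_out hv]
  · intro u u' v huu
    simp only
    by_cases hv : ∃ i < r, v ∈ D i
    · obtain ⟨i, hi, hv⟩ := hv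
      rw [ov_mk_in hD hi hv, ov_mk_in hD hi hv, huu i (fun h1 => hcls i v hv h1.symm)]
    · push Not at hv
      rw [ov_out D r _ _ _ hv, ov_out D r _ _ _ hv]

/-- The words which have few neighbours in all parts except for those in `F`. -/
theorem few_class [Fintype V] [Fintype Al] {P : (V → Al) → Prop} {E : Finset (V → Al)}
    (hE : ∀ z, z ∈ E ↔ P z) {w k t M n : ℕ} (hk : 1 ≤ k * w) (X : Finset V) (B : Fin t → Finset V)
    (hcov : ∀ v, ∃ p, v ∈ B p) (hT : ∀ p, TriS P w (cpl (B p))) (F : Finset (Fin t))
    (hF : ∀ p ∈ F, Fintype.card Al ^ (B p).card ≤ M) (hM : 1 ≤ M)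
    (hX : Fintype.card Al ^ X.card ≤ n) :
    (E.filter fun z => ∀ p, p ∉ F →
      (E.filter fun z' => ∀ v, v ∉ B p \ X → z' v = z v).card ≤ k).card ≤
      n * ((k * w) ^ t * M ^ F.card) := by
  obtain ⟨G, hG⟩ : ∃ G, G = E.filter fun z => ∀ p, p ∉ F →
      (E.filter fun z' => ∀ v, v ∉ B p \ X → z' v = z v).card ≤ k := ⟨_, rfl⟩
  rw [← hG]
  rcases G.eq_empty_or_nonempty with hG0 | ⟨zc, -⟩
  · rw [hG0, card_empty]
    exact Nat.zero_le _
  have himg : ∀ (Y : Finset V) (S : Finset (V → Al)),
      (S.image fun z => mix Y z zc).card ≤ Fintype.card Al ^ Y.card := by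
    intro Y S
    have h1 : Fintype.card (Y → Al) = Fintype.card Al ^ Y.card := by
      rw [Fintype.card_fun, Fintype.card_coe]
    rw [← h1, ← card_univ]
    refine card_le_card_of_injOn (fun z (v : Y) => z v) (fun _ _ => mem_coe.2 (mem_univ _)) ?_
    intro z hz z' hz' he
    rw [mem_coe, mem_image] at hz hz'
    obtain ⟨x, _, rfl⟩ := hz
    obtain ⟨x', _, rfl⟩ := hz'
    funext v
    by_cases hv : v ∈ Y
    · exact congrFun he ⟨v, hv⟩
    · rw [mix_out hv, mix_out hv]
  obtain ⟨lb, hlb⟩ : ∃ lb : (V → Al) → (V → Al), lb = fun z => mix X z zc := ⟨_, rfl⟩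
  have h1 : G.card = ∑ z0 ∈ G.image lb, (G.filter fun z => lb z = z0).card :=
    card_eq_sum_card_fiberwise (fun z hz => mem_image_of_mem _ hz)
  have h2 : ∀ z0 ∈ G.image lb, (G.filter fun z => lb z = z0).card ≤ (k * w) ^ t * M ^ F.card := by
    intro z0 _
    obtain ⟨S, hS⟩ : ∃ S, S = G.filter fun z => lb z = z0 := ⟨_, rfl⟩
    obtain ⟨N, hN⟩ : ∃ N, N = E.filter fun z => lb z = z0 := ⟨_, rfl⟩
    rw [← hS]
    have hSN : S ⊆ N := by
      rw [hS, hN, hG]
      intro z hz
      rw [mem_filter, mem_filter] at hz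
      exact mem_filter.2 ⟨hz.1.1, hz.2⟩
    have hNX : ∀ z ∈ N, ∀ z' ∈ N, ∀ v ∈ X, z v = z' v := by
      intro z hz z' hz' v hv
      rw [hN, mem_filter, hlb] at hz hz'
      have : mix X z zc v = mix X z' zc v := congrFun (hz.2.trans hz'.2.symm) v
      rwa [mix_in hv, mix_in hv] at this
    have hsmall : ∀ p, p ∉ F → (S.image fun z => mix (B p \ X) z zc).card ≤ k * w := by
      intro p hp
      refine few_parts (N := N) (P := S) (C := B p \ X) (w := w) (K := k) ?_ hSN zc ?_
      · intro k' x hx hno
        refine hT p k' x (fun i => ?_) fun i j hij => ?_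
        · have := hx i
          rw [hN, mem_filter] at this
          exact (hE _).1 this.1
        · have e1 : mix (cpl (B p)) (x i) (x j) = mix (B p \ X) (x j) (x i) := by
            rw [mix_compl]
            funext v
            by_cases h3 : v ∈ B p
            · by_cases h4 : v ∈ X
              · rw [mix_in h3, mix_out (fun h5 => (mem_sdiff.1 h5).2 h4)]
                exact hNX _ (hx j) _ (hx i) v h4
              · rw [mix_in h3, mix_in (mem_sdiff.2 ⟨h3, h4⟩)]
            · rw [mix_out h3, mix_out (fun h5 => h3 (mem_sdiff.1 h5).1)]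
          rw [e1]
          intro h3
          apply hno i j hij
          rw [hN, mem_filter]
          refine ⟨(hE _).2 h3, ?_⟩
          have h4 := hx i
          rw [hN, mem_filter] at h4
          rw [← h4.2, hlb]
          simp only
          funext v
          by_cases h5 : v ∈ X
          · rw [mix_in h5, mix_in h5, mix_out (fun h6 => (mem_sdiff.1 h6).2 h5)]
          · rw [mix_out h5, mix_out h5]
      · intro z hz
        have hzG : z ∈ G := by
          rw [hS, mem_filter] at hz
          exact hz.1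
        rw [hG, mem_filter] at hzG
        refine le_trans (card_le_card ?_) (hzG.2 p hp)
        intro z' hz'
        rw [mem_filter] at hz'
        rw [mem_filter]
        refine ⟨?_, fun v hv => ?_⟩
        · have := hz'.1
          rw [hN, mem_filter] at this
          exact this.1
        · have := congrFun hz'.2 v
          rwa [mix_out hv, mix_out hv] at this
    have hsub : S.card ≤ (Fintype.piFinset fun p : Fin t =>
        S.image (fun z => mix (B p \ X) z zc)).card := by
      refine card_le_card_of_injOn (fun z p => mix (B p \ X) z zc) ?_ ?_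
      · intro z hz
        rw [mem_coe, Fintype.mem_piFinset]
        intro p
        exact mem_image_of_mem _ hz
      · intro z hz z' hz' he
        funext v
        by_cases h3 : v ∈ X
        · exact hNX z (hSN hz) z' (hSN hz') v h3
        · obtain ⟨p, hp⟩ := hcov v
          have := congrFun (congrFun he p) v
          simp only at this
          rwa [mix_in (mem_sdiff.2 ⟨hp, h3⟩), mix_in (mem_sdiff.2 ⟨hp, h3⟩)] at this
    refine hsub.trans ?_
    rw [Fintype.card_piFinset]
    calc ∏ p, (S.image (fun z => mix (B p \ X) z zc)).card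
        ≤ ∏ p : Fin t, ((k * w) * (if p ∈ F then M else 1)) := by
          refine prod_le_prod' fun p _ => ?_
          by_cases hp : p ∈ F
          · rw [if_pos hp]
            calc (S.image (fun z => mix (B p \ X) z zc)).card
                ≤ Fintype.card Al ^ (B p \ X).card := himg _ _
              _ ≤ M := by
                rcases Nat.eq_zero_or_pos (Fintype.card Al) with h0 | h0
                · rw [h0]
                  rcases Nat.eq_zero_or_pos (B p \ X).card with h5 | h5
                  · rw [h5]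
                    simpa using hM
                  · rw [zero_pow (by omega)]
                    exact Nat.zero_le _
                · exact (Nat.pow_le_pow_right h0 (card_le_card sdiff_subset)).trans (hF p hp)
              _ = 1 * M := (one_mul _).symm
              _ ≤ _ := Nat.mul_le_mul_right _ hk
          · rw [if_neg hp, mul_one]
            exact hsmall p hp
      _ = (k * w) ^ t * M ^ F.card := by
          rw [prod_mul_distrib, prod_const, card_univ, Fintype.card_fin]
          congr 1
          rw [prod_ite_mem, univ_inter, prod_const]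
  rw [h1]
  calc _ ≤ ∑ z0 ∈ G.image lb, (k * w) ^ t * M ^ F.card := sum_le_sum h2
    _ = (G.image lb).card * ((k * w) ^ t * M ^ F.card) := by rw [sum_const, smul_eq_mul]
    _ ≤ _ := Nat.mul_le_mul_right _ (by
        rw [hlb]
        exact (himg X G).trans hX)

/-- The bound for the number of words, given a partition. -/
theorem count_parts [Fintype V] [Fintype Al] {P : (V → Al) → Prop} {E : Finset (V → Al)}
    (hE : ∀ z, z ∈ E ↔ P z) {w t M n r a : ℕ} (hr : 1 ≤ r) (hw : 1 ≤ w) (ht : 1 ≤ t) (ha : 1 ≤ a)
    (cls : V → ℕ) (hX : ∀ j < r, Fintype.card Al ^ (univ.filter fun v => cls v = j).card ≤ n)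
    (B : Fin t → Finset V) (hcov : ∀ v, ∃ p, v ∈ B p) (hdis : ∀ p p', p ≠ p' → Disjoint (B p) (B p'))
    (hT : ∀ p, TriS P w (B p) ∧ TriS P w (cpl (B p)))
    (hM : ∀ p, Fintype.card Al ^ (B p).card ≤ M) (hM1 : 1 ≤ M) (hno : ¬ HasGrid r a cls P) :
    E.card ≤ 2 * (r * (2 ^ t * (n * ((Kf a r w (2 * t ^ r) * w) ^ t * M ^ (r - 1))))) := by
  obtain ⟨k, hk⟩ : ∃ k, k = Kf a r w (2 * t ^ r) := ⟨_, rfl⟩
  have hk1 : 1 ≤ k := by
    rw [hk]
    obtain ⟨r', rfl⟩ : ∃ r', r = r' + 1 := ⟨r - 1, by omega⟩
    have : 1 ≤ 2 * t ^ (r' + 1) := by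
      have : 0 < 2 * t ^ (r' + 1) := by positivity
      omega
    unfold Kf
    have h1 : 0 < 4 * (2 * t ^ (r' + 1)) * w * (4 * a * (2 * t ^ (r' + 1)) * w) := by positivity
    omega
  obtain ⟨X, hXd⟩ : ∃ X : ℕ → Finset V, X = fun j => univ.filter fun v => cls v = j := ⟨_, rfl⟩
  obtain ⟨fat, hfat⟩ : ∃ fat : (V → Al) → ℕ → Fin t → Prop, fat = fun z j p =>
      k < (E.filter fun z' => ∀ v, v ∉ B p \ X j → z' v = z v).card := ⟨_, rfl⟩
  rcases E.eq_empty_or_nonempty with hE0 | ⟨zc, -⟩
  · rw [hE0, card_empty]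
    exact Nat.zero_le _
  -- the bad words
  obtain ⟨Eb, hEb⟩ : ∃ Eb : (Fin r → Fin t) → Finset (V → Al), Eb = fun σ =>
      E.filter fun z => Function.Injective σ ∧ ∀ j : Fin r, fat z j (σ j) := ⟨_, rfl⟩
  have hbad : ∀ σ : Fin r → Fin t, 2 * t ^ r * (Eb σ).card ≤ E.card := by
    intro σ
    by_cases hσ : Function.Injective σ
    · obtain ⟨Bσ, hBσ⟩ : ∃ Bσ : ℕ → Finset V, Bσ = fun i => if h : i < r then B (σ ⟨i, h⟩) else ∅ :=
        ⟨_, rfl⟩
      obtain ⟨D, hDd⟩ : ∃ D : ℕ → Finset V, D = fun i => Bσ i \ X i := ⟨_, rfl⟩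
      have hBe : ∀ i (h : i < r), Bσ i = B (σ ⟨i, h⟩) := by
        intro i h
        rw [hBσ]
        simp only
        rw [dif_pos h]
      have hDB : ∀ i, D i ⊆ Bσ i := by
        intro i
        rw [hDd]
        exact sdiff_subset
      have hBd : Dis Bσ r := by
        intro i hi j hj hij
        rw [hBe i hi, hBe j hj]
        apply hdis
        intro h
        have := hσ h
        simp only [Fin.mk.injEq] at this
        exact hij this
      have hDd' : Dis D r := fun i hi j hj hij =>
        disjoint_of_subset_left (hDB i) (disjoint_of_subset_right (hDB j) (hBd i hi j hj hij))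
      refine bad_words hE hw (by
        have : 0 < 2 * t ^ r := by positivity
        omega) ha (D := D) (B := Bσ) zc hDB hBd (fun i hi => by
        rw [hBe i hi]
        exact (hT _).1) (E' := Eb σ) (by rw [hEb]; exact filter_subset _ _) ?_ ?_
      · intro z hz d hd
        rw [hEb, mem_filter, hfat] at hz
        have h1 := hz.2.2 ⟨d, hd⟩
        rw [← hk]
        refine le_trans h1.le (le_of_eq ?_)
        rw [hDd]
        simp only
        rw [hBe d hd]
      · intro z0 hbox
        refine hno (grid_of_box (E' := Eb σ) (fun z hz => ?_) hDd' ?_ hbox)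
        · rw [hEb, mem_filter] at hz
          exact (hE z).1 hz.1
        · intro i v hv hvi
          rw [hDd] at hv
          have := (mem_sdiff.1 hv).2
          apply this
          rw [hXd, mem_filter]
          exact ⟨mem_univ _, hvi⟩
    · have : Eb σ = ∅ := by
        rw [hEb]
        simp [hσ]
      rw [this]
      simp
  -- the good words
  obtain ⟨Eg, hEg⟩ : ∃ Eg : ℕ → Finset (Fin t) → Finset (V → Al), Eg = fun j F =>
      E.filter fun z => F.card < r ∧ ∀ p, p ∉ F →
        (E.filter fun z' => ∀ v, v ∉ B p \ X j → z' v = z v).card ≤ k := ⟨_, rfl⟩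
  have hgood : ∀ j < r, ∀ F : Finset (Fin t),
      (Eg j F).card ≤ n * ((k * w) ^ t * M ^ (r - 1)) := by
    intro j hj F
    by_cases hF : F.card < r
    · have h1 : Eg j F = E.filter fun z => ∀ p, p ∉ F →
          (E.filter fun z' => ∀ v, v ∉ B p \ X j → z' v = z v).card ≤ k := by
        rw [hEg]
        simp only [hF, true_and]
      rw [h1]
      refine (few_class hE (Nat.mul_pos hk1 hw) (X j) B hcov (fun p => (hT p).2) F
        (fun p _ => hM p) hM1 (n := n) (by rw [hXd]; exact hX j hj)).trans ?_
      refine Nat.mul_le_mul_left _ (Nat.mul_le_mul_left _ (Nat.pow_le_pow_right hM1 (by omega)))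
    · have : Eg j F = ∅ := by
        rw [hEg]
        simp [hF]
      rw [this]
      simp
  have hsub : E ⊆ ((univ : Finset (Fin r → Fin t)).biUnion Eb) ∪
      ((range r) ×ˢ (univ : Finset (Finset (Fin t)))).biUnion (fun q => Eg q.1 q.2) := by
    intro z hz
    by_cases h : ∀ j : Fin r, r ≤ (univ.filter fun p => fat z j p).card
    · refine mem_union_left _ ?_
      have hall := (Finset.all_card_le_biUnion_card_iff_exists_injective
        (fun j : Fin r => univ.filter fun p => fat z j p)).1 (by
          intro s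
          rcases s.eq_empty_or_nonempty with hs | ⟨j, hj⟩
          · rw [hs]
            simp
          · calc s.card ≤ (univ : Finset (Fin r)).card := card_le_card (subset_univ _)
              _ = r := by rw [card_univ, Fintype.card_fin]
              _ ≤ (univ.filter fun p => fat z j p).card := h j
              _ ≤ _ := card_le_card (subset_biUnion_of_mem
                (fun j : Fin r => univ.filter fun p => fat z j p) hj))
      obtain ⟨σ, hσ1, hσ2⟩ := hall
      rw [mem_biUnion]
      refine ⟨σ, mem_univ _, ?_⟩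
      rw [hEb, mem_filter]
      exact ⟨hz, hσ1, fun j => (mem_filter.1 (hσ2 j)).2⟩
    · refine mem_union_right _ ?_
      push Not at h
      obtain ⟨j, hj⟩ := h
      rw [mem_biUnion]
      refine ⟨(j.1, univ.filter fun p => fat z j p),
        mem_product.2 ⟨mem_range.2 j.2, mem_univ _⟩, ?_⟩
      rw [hEg, mem_filter]
      refine ⟨hz, hj, fun p hp => ?_⟩
      by_contra h3
      apply hp
      rw [mem_filter]
      refine ⟨mem_univ _, ?_⟩
      rw [hfat]
      exact not_le.1 h3
  have c1 := (card_le_card hsub).trans (card_union_le _ _)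
  have c2 : 2 * ((univ : Finset (Fin r → Fin t)).biUnion Eb).card ≤ E.card := by
    refine Nat.le_of_mul_le_mul_left (c := t ^ r) ?_ (by positivity)
    calc t ^ r * (2 * ((univ : Finset (Fin r → Fin t)).biUnion Eb).card)
        ≤ t ^ r * (2 * ∑ σ : Fin r → Fin t, (Eb σ).card) :=
          Nat.mul_le_mul_left _ (Nat.mul_le_mul_left _ card_biUnion_le)
      _ = ∑ σ : Fin r → Fin t, 2 * t ^ r * (Eb σ).card := by
          rw [← mul_sum]
          ring
      _ ≤ ∑ σ : Fin r → Fin t, E.card := sum_le_sum fun σ _ => hbad σ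
      _ = t ^ r * E.card := by
          rw [sum_const, smul_eq_mul, card_univ, Fintype.card_fun, Fintype.card_fin,
            Fintype.card_fin]
  have c3 : (((range r) ×ˢ (univ : Finset (Finset (Fin t)))).biUnion
      (fun q => Eg q.1 q.2)).card ≤ r * (2 ^ t * (n * ((k * w) ^ t * M ^ (r - 1)))) := by
    refine card_biUnion_le.trans ?_
    calc _ ≤ ∑ q ∈ (range r) ×ˢ (univ : Finset (Finset (Fin t))),
          n * ((k * w) ^ t * M ^ (r - 1)) := sum_le_sum fun q hq =>
            hgood q.1 (mem_range.1 (mem_product.1 hq).1) q.2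
      _ = _ := by
          rw [sum_const, smul_eq_mul, card_product, card_range, card_univ, Fintype.card_finset,
            Fintype.card_fin]
          ring
  rw [← hk]
  omega

end Pool.Agent.V11163.ZG
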