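import Pool.Agent.V11163.ZK.Comb

/-!
# Boxes in dense parts of sets of small triangular rank
-/

set_option autoImplicit false

open Finset Classical

namespace Pool.Agent.V11163.ZG

open Pool.Agent.V11163.ZK (Tri cover)

/-- `r`-tuples, as iterated pairs. -/
def PT (α : Type) : ℕ → Type
  | 0 => Unit
  | r + 1 => PT α r × α

variable {α : Type}

/-- All coordinates but the last one. -/
def pfst {r : ℕ} (u : PT α (r + 1)) : PT α r := Prod.fst (show PT α r × α from u)

/-- The last coordinate. -/
def plast {r : ℕ} (u : PT α (r + 1)) : α := Prod.snd (show PT α r × α from u)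

/-- Add a coordinate. -/
def pmk {r : ℕ} (p : PT α r) (l : α) : PT α (r + 1) := (show PT α r × α from (p, l))

theorem pext {r : ℕ} {u u' : PT α (r + 1)} (h1 : pfst u = pfst u') (h2 : plast u = plast u') :
    u = u' := Prod.ext h1 h2

theorem pmk_eta {r : ℕ} (u : PT α (r + 1)) : pmk (pfst u) (plast u) = u := rfl

theorem pfst_pmk {r : ℕ} (p : PT α r) (l : α) : pfst (pmk p l) = p := rfl

theorem plast_pmk {r : ℕ} (p : PT α r) (l : α) : plast (pmk p l) = l := rfl

/-- The slice of `T` at the last coordinate `l`. -/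
noncomputable def slice {r : ℕ} (T : Finset (PT α (r + 1))) (l : α) : Finset (PT α r) :=
  (T.filter fun u => plast u = l).image pfst

theorem mem_slice {r : ℕ} {T : Finset (PT α (r + 1))} {l : α} {p : PT α r} :
    p ∈ slice T l ↔ pmk p l ∈ T := by
  unfold slice
  rw [mem_image]
  constructor
  · rintro ⟨u, hu, rfl⟩
    rw [mem_filter] at hu
    obtain ⟨h1, h2⟩ := hu
    rw [← h2, pmk_eta]
    exact h1
  · intro h
    exact ⟨pmk p l, mem_filter.2 ⟨h, rfl⟩, rfl⟩

theorem card_slices {r : ℕ} (T : Finset (PT α (r + 1))) (L : Finset α)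
    (hL : ∀ u ∈ T, plast u ∈ L) : T.card = ∑ l ∈ L, (slice T l).card := by
  rw [card_eq_sum_card_fiberwise (f := fun u : PT α (r + 1) => plast u) (t := L) hL]
  refine sum_congr rfl fun l _ => ?_
  unfold slice
  rw [card_image_of_injOn]
  intro u hu u' hu' h
  rw [mem_coe, mem_filter] at hu hu'
  exact pext h (hu.2.trans hu'.2.symm)

theorem slice_mono {r : ℕ} {T T' : Finset (PT α (r + 1))} (h : T ⊆ T') (l : α) :
    slice T l ⊆ slice T' l := by
  intro p hp
  rw [mem_slice] at hp ⊢
  exact h hp

/-- All the triangular ranks are at most `w`. -/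
def rk (w : ℕ) : (r : ℕ) → Finset (PT α r) → Prop
  | 0, _ => True
  | r + 1, T => Tri (fun (l : α) (p : PT α r) => p ∈ slice T l) w ∧ ∀ l, rk w r (slice T l)

/-- `T` contains a box with sides of `a` elements. -/
def Box (a : ℕ) : (r : ℕ) → Finset (PT α r) → Prop
  | 0, T => T.Nonempty
  | r + 1, T => ∃ L : Finset α, L.card = a ∧
      ∃ S : Finset (PT α r), (∀ p ∈ S, ∀ l ∈ L, p ∈ slice T l) ∧ Box a r S

/-- The number of lines in direction `d` that meet `T`. -/
noncomputable def lin : (r : ℕ) → ℕ → Finset (PT α r) → ℕ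
  | 0, _, _ => 0
  | r + 1, d, T => if d = r then (T.image pfst).card
      else ∑ l ∈ T.image plast, lin r d (slice T l)

theorem lin_self (r : ℕ) (T : Finset (PT α (r + 1))) : lin (r + 1) r T = (T.image pfst).card := by
  show (if r = r then _ else _) = _
  rw [if_pos rfl]

theorem lin_lt {r d : ℕ} (hd : d < r) (T : Finset (PT α (r + 1))) :
    lin (r + 1) d T = ∑ l ∈ T.image plast, lin r d (slice T l) := by
  show (if d = r then _ else _) = _
  rw [if_neg (by omega)]

theorem lin_ne {r d : ℕ} (hd : d ≠ r) (T : Finset (PT α (r + 1))) :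
    lin (r + 1) d T = ∑ l ∈ T.image plast, lin r d (slice T l) := by
  show (if d = r then _ else _) = _
  rw [if_neg hd]

theorem lin_mono (r d : ℕ) : ∀ {T T' : Finset (PT α r)}, T ⊆ T' → lin r d T ≤ lin r d T' := by
  induction r with
  | zero => intro T T' _; exact le_rfl
  | succ r ih =>
    intro T T' h
    by_cases hd : d = r
    · subst hd
      rw [lin_self, lin_self]
      exact card_le_card (image_subset_image h)
    · rw [lin_ne hd, lin_ne hd]
      calc ∑ l ∈ T.image plast, lin r d (slice T l)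
          ≤ ∑ l ∈ T.image plast, lin r d (slice T' l) :=
            sum_le_sum fun l _ => ih (slice_mono h l)
        _ ≤ _ := sum_le_sum_of_subset (image_subset_image h)

theorem sum_union_le' {β : Type} (s t : Finset β) (f : β → ℕ) :
    ∑ x ∈ s ∪ t, f x ≤ ∑ x ∈ s, f x + ∑ x ∈ t, f x := by
  rw [← sum_union_inter]
  exact Nat.le_add_right _ _

theorem sum_biUnion_le' {β γ : Type} (s : Finset γ) (B : γ → Finset β) (f : β → ℕ) :
    ∑ x ∈ s.biUnion B, f x ≤ ∑ d ∈ s, ∑ x ∈ B d, f x := by
  induction s using Finset.induction_on with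
  | empty => simp
  | insert d s hd ih =>
    rw [biUnion_insert, sum_insert hd]
    exact (sum_union_le' _ _ _).trans (Nat.add_le_add_left ih _)

/-- The constant. -/
def Kf (a : ℕ) : ℕ → ℕ → ℕ → ℕ
  | 0, _, _ => 1
  | r + 1, w, h => 4 * (r + 1) * h * (2 * h * w * Kf a r w (4 * h * w * (4 * a * h * w) ^ a)) +
      4 * h * w * (4 * a * h * w)

/-- Many dense subsets: `a` of them have a large intersection. -/
theorem inter_large {β γ : Type} (a c : ℕ) (ha : 1 ≤ a) (hc : 1 ≤ c) (L : Finset β) (S : Finset γ)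
    (A : β → Finset γ) (hL : L.card = 2 * a * c) (hA : ∀ l ∈ L, A l ⊆ S ∧ S.card ≤ c * (A l).card) :
    ∃ L' ⊆ L, L'.card = a ∧ ∃ S' ⊆ S, (∀ s ∈ S', ∀ l ∈ L', s ∈ A l) ∧
      S.card ≤ 2 * c * (2 * a * c) ^ a * S'.card := by
  obtain ⟨dg, hdg⟩ : ∃ dg : γ → ℕ, dg = fun s => (L.filter fun l => s ∈ A l).card := ⟨_, rfl⟩
  have h1 : ∑ s ∈ S, dg s = ∑ l ∈ L, (A l).card := by
    rw [hdg]
    simp only [card_filter]
    rw [sum_comm]
    refine sum_congr rfl fun l hl => ?_
    rw [← card_filter]
    congr 1
    ext s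
    rw [mem_filter]
    exact ⟨fun h => h.2, fun h => ⟨(hA l hl).1 h, h⟩⟩
  have h2 : 2 * a * S.card ≤ ∑ s ∈ S, dg s := by
    refine Nat.le_of_mul_le_mul_left ?_ hc
    rw [h1, mul_sum]
    calc c * (2 * a * S.card) = ∑ l ∈ L, S.card := by
          rw [sum_const, smul_eq_mul, hL]
          ring
      _ ≤ _ := sum_le_sum fun l hl => (hA l hl).2
  obtain ⟨S1, hS1⟩ : ∃ S1, S1 = S.filter fun s => a ≤ dg s := ⟨_, rfl⟩
  have hS1S : S1 ⊆ S := by rw [hS1]; exact filter_subset _ _
  have h3 : ∑ s ∈ S, dg s ≤ a * S.card + 2 * a * c * S1.card := by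
    rw [← sum_filter_add_sum_filter_not S (fun s => a ≤ dg s), ← hS1, add_comm]
    refine Nat.add_le_add ?_ ?_
    · calc ∑ s ∈ S.filter (fun s => ¬ a ≤ dg s), dg s
          ≤ ∑ s ∈ S.filter (fun s => ¬ a ≤ dg s), a := sum_le_sum fun s hs => by
            rw [mem_filter] at hs
            omega
        _ = (S.filter (fun s => ¬ a ≤ dg s)).card * a := by rw [sum_const, smul_eq_mul]
        _ ≤ S.card * a := Nat.mul_le_mul_right _ (card_le_card (filter_subset _ _))
        _ = _ := mul_comm _ _
    · calc ∑ s ∈ S1, dg s ≤ ∑ s ∈ S1, 2 * a * c := sum_le_sum fun s _ => by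
            rw [hdg, ← hL]
            exact card_le_card (filter_subset _ _)
        _ = _ := by rw [sum_const, smul_eq_mul, mul_comm]
  have h4 : S.card ≤ 2 * c * S1.card := by
    have h5 : a * S.card ≤ a * (2 * c * S1.card) := by
      have : 2 * a * S.card = a * S.card + a * S.card := by ring
      have h6 : 2 * a * c * S1.card = a * (2 * c * S1.card) := by ring
      omega
    exact Nat.le_of_mul_le_mul_left h5 ha
  have hch : ∀ s ∈ S1, ∃ L' ∈ L.powersetCard a, ∀ l ∈ L', s ∈ A l := by
    intro s hs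
    rw [hS1, mem_filter, hdg] at hs
    obtain ⟨L', hL', hc'⟩ := exists_subset_card_eq hs.2
    exact ⟨L', mem_powersetCard.2 ⟨hL'.trans (filter_subset _ _), hc'⟩,
      fun l hl => (mem_filter.1 (hL' hl)).2⟩
  choose! g hg1 hg2 using hch
  have hpc : (L.powersetCard a).card ≤ (2 * a * c) ^ a := by
    rw [card_powersetCard, hL]
    exact Nat.choose_le_pow _ _
  have hex : ∃ L' ∈ L.powersetCard a,
      S1.card ≤ (2 * a * c) ^ a * (S1.filter fun s => g s = L').card := by
    by_contra hno
    push Not at hno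
    rcases S1.eq_empty_or_nonempty with h0 | h0
    · have hne : (L.powersetCard a).Nonempty := by
        rw [powersetCard_nonempty, hL]
        nlinarith
      obtain ⟨L', hL'⟩ := hne
      have := hno L' hL'
      rw [h0] at this
      simp at this
    · have h5 : S1.card = ∑ L' ∈ L.powersetCard a, (S1.filter fun s => g s = L').card :=
        card_eq_sum_card_fiberwise (fun s hs => hg1 s hs)
      have h6 : (2 * a * c) ^ a * S1.card < (L.powersetCard a).card * S1.card := by
        calc (2 * a * c) ^ a * S1.card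
            = ∑ L' ∈ L.powersetCard a, (2 * a * c) ^ a * (S1.filter fun s => g s = L').card := by
              conv_lhs => rw [h5]
              rw [mul_sum]
          _ < ∑ L' ∈ L.powersetCard a, S1.card := by
              refine sum_lt_sum_of_nonempty ?_ (fun L' hL' => hno L' hL')
              obtain ⟨s, hs⟩ := h0
              exact ⟨g s, hg1 s hs⟩
          _ = _ := by rw [sum_const, smul_eq_mul]
      have h7 := Nat.lt_of_mul_lt_mul_right h6
      omega
  obtain ⟨L', hL', hcc⟩ := hex
  rw [mem_powersetCard] at hL'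
  refine ⟨L', hL'.1, hL'.2, S1.filter fun s => g s = L', (filter_subset _ _).trans hS1S, ?_, ?_⟩
  · intro s hs l hl
    rw [mem_filter] at hs
    exact hg2 s hs.1 l (by rw [hs.2]; exact hl)
  · calc S.card ≤ 2 * c * S1.card := h4
      _ ≤ 2 * c * ((2 * a * c) ^ a * (S1.filter fun s => g s = L').card) :=
          Nat.mul_le_mul_left _ hcc
      _ = _ := by ring

/-- Dense parts which meet few lines contain boxes. -/
theorem box_exists (a : ℕ) (ha : 1 ≤ a) : ∀ (r w h : ℕ), 1 ≤ w → 1 ≤ h →
    ∀ T T' : Finset (PT α r), rk w r T → T' ⊆ T → T'.Nonempty → T.card ≤ h * T'.card →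
    (∀ d < r, Kf a r w h * lin r d T' ≤ T.card) → Box a r T' := by
  intro r
  induction r with
  | zero =>
    intro w h _ _ T T' _ _ hne _ _
    exact hne
  | succ r ih =>
    intro w h hw hh T T' hrk hsub hne hdense hlin
    obtain ⟨h1, hh1⟩ : ∃ h1, h1 = 4 * h * w * (4 * a * h * w) ^ a := ⟨_, rfl⟩
    obtain ⟨K1, hK1⟩ : ∃ K1, K1 = Kf a r w h1 := ⟨_, rfl⟩
    obtain ⟨K, hK⟩ : ∃ K, K = Kf a (r + 1) w h := ⟨_, rfl⟩
    have hKe : K = 4 * (r + 1) * h * (2 * h * w * K1) + 4 * h * w * (4 * a * h * w) := by
      rw [hK, hK1, hh1]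
      rfl
    rw [← hK] at hlin
    obtain ⟨Λ, hΛ⟩ : ∃ Λ, Λ = T.image plast := ⟨_, rfl⟩
    obtain ⟨Λ', hΛ'⟩ : ∃ Λ', Λ' = T'.image plast := ⟨_, rfl⟩
    have hΛsub : Λ' ⊆ Λ := by rw [hΛ, hΛ']; exact image_subset_image hsub
    have cT : T.card = ∑ l ∈ Λ, (slice T l).card :=
      card_slices T Λ fun u hu => by rw [hΛ]; exact mem_image_of_mem _ hu
    have cT' : T'.card = ∑ l ∈ Λ', (slice T' l).card :=
      card_slices T' Λ' fun u hu => by rw [hΛ']; exact mem_image_of_mem _ hu
    have hT'0 : 0 < T'.card := card_pos.2 hne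
    -- the bad slices of the first kind
    obtain ⟨B1, hB1⟩ : ∃ B1, B1 = Λ'.filter fun l => 2 * h * (slice T' l).card < (slice T l).card :=
      ⟨_, rfl⟩
    have b1 : 2 * ∑ l ∈ B1, (slice T' l).card ≤ T'.card := by
      refine Nat.le_of_mul_le_mul_left ?_ hh
      calc h * (2 * ∑ l ∈ B1, (slice T' l).card) = ∑ l ∈ B1, 2 * h * (slice T' l).card := by
            rw [← mul_assoc, mul_sum]
            exact sum_congr rfl fun l _ => by ring
        _ ≤ ∑ l ∈ B1, (slice T l).card := sum_le_sum fun l hl => by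
            rw [hB1, mem_filter] at hl
            exact hl.2.le
        _ ≤ ∑ l ∈ Λ, (slice T l).card := sum_le_sum_of_subset (by
            rw [hB1]
            exact (filter_subset _ _).trans hΛsub)
        _ = T.card := cT.symm
        _ ≤ h * T'.card := hdense
    -- the bad slices of the second kind
    obtain ⟨B2, hB2⟩ : ∃ B2 : ℕ → Finset α, B2 = fun d => Λ'.filter fun l =>
        (slice T l).card < 2 * h * w * K1 * lin r d (slice T' l) := ⟨_, rfl⟩
    have b2 : ∀ d < r, 4 * (r + 1) * ∑ l ∈ B2 d, (slice T' l).card ≤ T'.card := by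
      intro d hd
      have e1 : ∑ l ∈ B2 d, (slice T' l).card ≤ 2 * h * w * K1 * lin (r + 1) d T' := by
        calc ∑ l ∈ B2 d, (slice T' l).card
            ≤ ∑ l ∈ B2 d, 2 * h * w * K1 * lin r d (slice T' l) := sum_le_sum fun l hl => by
              rw [hB2, mem_filter] at hl
              exact (card_le_card (slice_mono hsub l)).trans hl.2.le
          _ ≤ ∑ l ∈ Λ', 2 * h * w * K1 * lin r d (slice T' l) := sum_le_sum_of_subset (by
              rw [hB2]
              exact filter_subset _ _)
          _ = 2 * h * w * K1 * lin (r + 1) d T' := by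
              rw [← mul_sum, lin_lt hd, hΛ']
      rcases Nat.eq_zero_or_pos (2 * h * w * K1) with hz | hz
      · rw [hz] at e1
        have : ∑ l ∈ B2 d, (slice T' l).card = 0 := by omega
        rw [this]
        simp
      · refine Nat.le_of_mul_le_mul_left ?_ (show 0 < h by omega)
        calc h * (4 * (r + 1) * ∑ l ∈ B2 d, (slice T' l).card)
            ≤ h * (4 * (r + 1) * (2 * h * w * K1 * lin (r + 1) d T')) :=
              Nat.mul_le_mul_left _ (Nat.mul_le_mul_left _ e1)
          _ = (4 * (r + 1) * h * (2 * h * w * K1)) * lin (r + 1) d T' := by ring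
          _ ≤ K * lin (r + 1) d T' := Nat.mul_le_mul_right _ (by omega)
          _ ≤ T.card := hlin d (by omega)
          _ ≤ _ := hdense
    -- the good slices
    obtain ⟨G, hG⟩ : ∃ G, G = Λ' \ (B1 ∪ (range r).biUnion B2) := ⟨_, rfl⟩
    have g1 : T'.card ≤ 4 * ∑ l ∈ G, (slice T' l).card := by
      have e1 : T'.card ≤ ∑ l ∈ G, (slice T' l).card + (∑ l ∈ B1, (slice T' l).card +
          ∑ d ∈ range r, ∑ l ∈ B2 d, (slice T' l).card) := by
        have e2 : Λ' ⊆ G ∪ (B1 ∪ (range r).biUnion B2) := by
          rw [hG]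
          intro l hl
          by_cases h3 : l ∈ B1 ∪ (range r).biUnion B2
          · exact mem_union_right _ h3
          · exact mem_union_left _ (mem_sdiff.2 ⟨hl, h3⟩)
        rw [cT']
        refine (sum_le_sum_of_subset e2).trans ?_
        refine (sum_union_le' _ _ _).trans (Nat.add_le_add_left ?_ _)
        refine (sum_union_le' _ _ _).trans (Nat.add_le_add_left ?_ _)
        exact sum_biUnion_le' _ _ _
      have e3 : 4 * (r + 1) * ∑ d ∈ range r, ∑ l ∈ B2 d, (slice T' l).card ≤ r * T'.card := by
        rw [mul_sum]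
        calc _ ≤ ∑ d ∈ range r, T'.card := sum_le_sum fun d hd => b2 d (mem_range.1 hd)
          _ = _ := by rw [sum_const, smul_eq_mul, card_range]
      have e4 : 4 * ∑ d ∈ range r, ∑ l ∈ B2 d, (slice T' l).card ≤ T'.card := by
        refine Nat.le_of_mul_le_mul_left (c := r + 1) ?_ (by omega)
        calc (r + 1) * (4 * ∑ d ∈ range r, ∑ l ∈ B2 d, (slice T' l).card)
            = 4 * (r + 1) * ∑ d ∈ range r, ∑ l ∈ B2 d, (slice T' l).card := by ring
          _ ≤ r * T'.card := e3
          _ ≤ _ := Nat.mul_le_mul_right _ (by omega)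
      omega
    have hGT : ∀ l ∈ G, (slice T l).card ≤ 2 * h * (slice T' l).card ∧
        (∀ d < r, 2 * h * w * K1 * lin r d (slice T' l) ≤ (slice T l).card) ∧
        (slice T' l).Nonempty ∧ l ∈ Λ := by
      intro l hl
      rw [hG, mem_sdiff, mem_union, not_or, mem_biUnion] at hl
      obtain ⟨hl1, hl2, hl3⟩ := hl
      refine ⟨?_, ?_, ?_, hΛsub hl1⟩
      · by_contra h3
        exact hl2 (by rw [hB1, mem_filter]; exact ⟨hl1, by omega⟩)
      · intro d hd
        by_contra h3
        exact hl3 ⟨d, mem_range.2 hd, by rw [hB2, mem_filter]; exact ⟨hl1, by omega⟩⟩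
      · rw [hΛ', mem_image] at hl1
        obtain ⟨u, hu, rfl⟩ := hl1
        exact ⟨pfst u, mem_slice.2 hu⟩
    have g2 : K ≤ 4 * h * G.card := by
      have e1 : ∑ l ∈ G, (slice T' l).card ≤ G.card * lin (r + 1) r T' := by
        calc ∑ l ∈ G, (slice T' l).card ≤ ∑ l ∈ G, lin (r + 1) r T' := sum_le_sum fun l _ => by
              rw [lin_self]
              refine card_le_card ?_
              intro p hp
              rw [mem_slice] at hp
              exact mem_image.2 ⟨_, hp, rfl⟩
          _ = _ := by rw [sum_const, smul_eq_mul]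
      have e2 := hlin r (by omega)
      refine Nat.le_of_mul_le_mul_right ?_ hT'0
      calc K * T'.card ≤ K * (4 * (G.card * lin (r + 1) r T')) :=
            Nat.mul_le_mul_left _ (g1.trans (Nat.mul_le_mul_left _ e1))
        _ = 4 * G.card * (K * lin (r + 1) r T') := by ring
        _ ≤ 4 * G.card * T.card := Nat.mul_le_mul_left _ e2
        _ ≤ 4 * G.card * (h * T'.card) := Nat.mul_le_mul_left _ hdense
        _ = _ := by ring
    -- the cover
    obtain ⟨B, hBΛ, hBw, hB⟩ := cover (fun l => (slice T l).card) Λ (T.image pfst) w _ hrk.1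
    have hch : ∀ l ∈ G, ∃ b ∈ B, (slice T b).card ≤ (slice T l).card ∧
        (slice T' l).card ≤ w * (slice T' l ∩ slice T b).card := by
      intro l hl
      obtain ⟨k1, k2, k3, k4⟩ := hGT l hl
      by_contra hno
      push Not at hno
      obtain ⟨B', hB'⟩ : ∃ B', B' = B.filter fun b => (slice T b).card ≤ (slice T l).card := ⟨_, rfl⟩
      have e1 : slice T' l ⊆ B'.biUnion fun b => slice T' l ∩ slice T b := by
        intro p hp
        have hpT : p ∈ slice T l := slice_mono hsub l hp
        obtain ⟨b, hb, hb1, hb2⟩ := hB l k4 p (by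
          rw [mem_slice] at hpT
          exact mem_image.2 ⟨_, hpT, rfl⟩) hpT
        rw [mem_biUnion]
        exact ⟨b, by rw [hB', mem_filter]; exact ⟨hb, hb2⟩, mem_inter.2 ⟨hp, hb1⟩⟩
      have e2 : (slice T' l).card ≤ ∑ b ∈ B', (slice T' l ∩ slice T b).card :=
        (card_le_card e1).trans card_biUnion_le
      have hB'ne : B'.Nonempty := by
        obtain ⟨p, hp⟩ := k3
        obtain ⟨b, hb, _⟩ := mem_biUnion.1 (e1 hp)
        exact ⟨b, hb⟩
      have e3 : w * (slice T' l).card < B'.card * (slice T' l).card := by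
        calc w * (slice T' l).card ≤ w * ∑ b ∈ B', (slice T' l ∩ slice T b).card :=
              Nat.mul_le_mul_left _ e2
          _ = ∑ b ∈ B', w * (slice T' l ∩ slice T b).card := mul_sum _ _ _
          _ < ∑ b ∈ B', (slice T' l).card := sum_lt_sum_of_nonempty hB'ne fun b hb => by
              rw [hB', mem_filter] at hb
              exact hno b hb.1 hb.2
          _ = _ := by rw [sum_const, smul_eq_mul]
      have e4 := Nat.lt_of_mul_lt_mul_right e3
      have e5 : B'.card ≤ B.card := by rw [hB']; exact card_le_card (filter_subset _ _)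
      omega
    choose! g hg1 hg2 hg3 using hch
    have hGB : ∃ b ∈ B, G.card ≤ w * (G.filter fun l => g l = b).card := by
      by_contra hno
      push Not at hno
      have hG0 : 0 < G.card := by
        by_contra h0
        have : G.card = 0 := by omega
        rw [card_eq_zero] at this
        rw [this] at g1
        simp at g1
        rw [g1] at hne
        exact absurd hne (by simp)
      have hBne : B.Nonempty := by
        obtain ⟨l, hl⟩ := card_pos.1 hG0
        exact ⟨g l, hg1 l hl⟩
      have e1 : G.card = ∑ b ∈ B, (G.filter fun l => g l = b).card :=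
        card_eq_sum_card_fiberwise (fun l hl => hg1 l hl)
      have e2 : w * G.card < B.card * G.card := by
        calc w * G.card = ∑ b ∈ B, w * (G.filter fun l => g l = b).card := by
              conv_lhs => rw [e1]
              rw [mul_sum]
          _ < ∑ b ∈ B, G.card := sum_lt_sum_of_nonempty hBne fun b hb => hno b hb
          _ = _ := by rw [sum_const, smul_eq_mul]
      have e3 := Nat.lt_of_mul_lt_mul_right e2
      omega
    obtain ⟨b, hb, hbG⟩ := hGB
    have hR1 : 4 * a * h * w ≤ (G.filter fun l => g l = b).card := by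
      have e1 : 4 * h * w * (4 * a * h * w) ≤ 4 * h * w * (G.filter fun l => g l = b).card := by
        calc 4 * h * w * (4 * a * h * w) ≤ K := by omega
          _ ≤ 4 * h * G.card := g2
          _ ≤ 4 * h * (w * (G.filter fun l => g l = b).card) := Nat.mul_le_mul_left _ hbG
          _ = _ := by ring
      exact Nat.le_of_mul_le_mul_left e1 (by positivity)
    obtain ⟨Lb, hLb, hLbc⟩ := exists_subset_card_eq hR1
    have hLbp : ∀ l ∈ Lb, l ∈ G ∧ g l = b := fun l hl => mem_filter.1 (hLb hl)
    obtain ⟨L', hL', hLc, S', hS'S, hS'A, hS'c⟩ := inter_large a (2 * h * w) ha (by nlinarith)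
      Lb (slice T b) (fun l => slice T' l ∩ slice T b) (by rw [hLbc]; ring) (by
        intro l hl
        obtain ⟨k1, k2⟩ := hLbp l hl
        refine ⟨inter_subset_right, ?_⟩
        have e1 := hg2 l k1
        have e2 := hg3 l k1
        rw [k2] at e1 e2
        calc (slice T b).card ≤ (slice T l).card := e1
          _ ≤ 2 * h * (slice T' l).card := (hGT l k1).1
          _ ≤ 2 * h * (w * (slice T' l ∩ slice T b).card) := Nat.mul_le_mul_left _ e2
          _ = _ := by ring)
    have hS0 : 0 < (slice T b).card := by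
      have hl0 : L'.Nonempty := card_pos.1 (by omega)
      obtain ⟨l, hl⟩ := hl0
      obtain ⟨k1, k2⟩ := hLbp l (hL' hl)
      have e2 := hg3 l k1
      rw [k2] at e2
      have e3 : 0 < (slice T' l).card := card_pos.2 (hGT l k1).2.2.1
      have e4 : 0 < (slice T' l ∩ slice T b).card := by
        rcases Nat.eq_zero_or_pos (slice T' l ∩ slice T b).card with h0 | h0
        · rw [h0] at e2
          omega
        · exact h0
      exact lt_of_lt_of_le e4 (card_le_card inter_subset_right)
    have hS'ne : S'.Nonempty := by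
      rw [← card_pos]
      rcases Nat.eq_zero_or_pos S'.card with h0 | h0
      · rw [h0] at hS'c
        omega
      · exact h0
    have hhe : 2 * (2 * h * w) * (2 * a * (2 * h * w)) ^ a = h1 := by
      rw [hh1]
      ring
    rw [hhe] at hS'c
    have hh1' : 1 ≤ h1 := by
      rw [hh1]
      have : 0 < 4 * h * w * (4 * a * h * w) ^ a := by positivity
      omega
    have hbox := ih w h1 hw hh1' (slice T b) S' (hrk.2 b) hS'S hS'ne hS'c (by
      intro d hd
      obtain ⟨l, hl⟩ : L'.Nonempty := card_pos.1 (by omega)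
      obtain ⟨k1, k2⟩ := hLbp l (hL' hl)
      have e1 : lin r d S' ≤ lin r d (slice T' l) :=
        lin_mono r d fun s hs => (mem_inter.1 (hS'A s hs l hl)).1
      have e2 := (hGT l k1).2.1 d hd
      have e3 := hg3 l k1
      rw [k2] at e3
      rw [← hK1]
      refine Nat.le_of_mul_le_mul_left (c := 2 * h * w) ?_ (by positivity)
      calc 2 * h * w * (K1 * lin r d S') ≤ 2 * h * w * (K1 * lin r d (slice T' l)) :=
            Nat.mul_le_mul_left _ (Nat.mul_le_mul_left _ e1)
        _ = 2 * h * w * K1 * lin r d (slice T' l) := by ring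
        _ ≤ (slice T l).card := e2
        _ ≤ 2 * h * (slice T' l).card := (hGT l k1).1
        _ ≤ 2 * h * (w * (slice T' l ∩ slice T b).card) := Nat.mul_le_mul_left _ e3
        _ ≤ 2 * h * (w * (slice T b).card) :=
            Nat.mul_le_mul_left _ (Nat.mul_le_mul_left _ (card_le_card inter_subset_right))
        _ = _ := by ring)
    exact ⟨L', hLc, S', fun p hp l hl => (mem_inter.1 (hS'A p hp l hl)).1, hbox⟩

end Pool.Agent.V11163.ZG
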