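import Pool.Agent.V11163.ZG.Dim
import Pool.Agent.V11163.ZK.Main

/-!
# Boxes in blocks of a set of words
-/

set_option autoImplicit false

open Finset Classical

namespace Pool.Agent.V11163.ZG

open Pool.Agent.TH700.PA (mix mix_self)
open Pool.Agent.V11163.ZK (Tri TriS mix_left)

variable {V Al : Type}

/-- Overlay: the coordinates of `u` on the sets `D i`, and `z0` elsewhere. -/
noncomputable def ov (D : ℕ → Finset V) : (r : ℕ) → PT (V → Al) r → (V → Al) → (V → Al)
  | 0, _, z0 => z0
  | r + 1, u, z0 => mix (D r) (plast u) (ov D r (pfst u) z0)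

/-- The coordinates are equal to `zc` outside the sets `D i`. -/
def can (D : ℕ → Finset V) (zc : V → Al) : (r : ℕ) → PT (V → Al) r → Prop
  | 0, _ => True
  | r + 1, u => mix (D r) (plast u) zc = plast u ∧ can D zc r (pfst u)

/-- The coordinates of a word. -/
noncomputable def em (D : ℕ → Finset V) (zc : V → Al) : (r : ℕ) → (V → Al) → PT (V → Al) r
  | 0, _ => ()
  | r + 1, z => pmk (em D zc r z) (mix (D r) z zc)

/-- Pairwise disjoint sets. -/
def Dis (D : ℕ → Finset V) (r : ℕ) : Prop := ∀ i < r, ∀ j < r, i ≠ j → Disjoint (D i) (D j)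

theorem Dis.mono {D : ℕ → Finset V} {r : ℕ} (h : Dis D (r + 1)) : Dis D r :=
  fun i hi j hj hij => h i (by omega) j (by omega) hij

theorem mix_in {A : Finset V} {x y : V → Al} {v : V} (h : v ∈ A) : mix A x y v = x v := by
  unfold mix
  rw [if_pos h]

theorem mix_out {A : Finset V} {x y : V → Al} {v : V} (h : v ∉ A) : mix A x y v = y v := by
  unfold mix
  rw [if_neg h]

theorem can_em (D : ℕ → Finset V) (zc : V → Al) : ∀ (r : ℕ) (z : V → Al), can D zc r (em D zc r z) := by
  intro r
  induction r with
  | zero => intro _; trivial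
  | succ r ih => exact fun z => ⟨mix_left _ _ _ _, ih z⟩

theorem ov_out (D : ℕ → Finset V) : ∀ (r : ℕ) (u : PT (V → Al) r) (z0 : V → Al) (v : V),
    (∀ i < r, v ∉ D i) → ov D r u z0 v = z0 v := by
  intro r
  induction r with
  | zero => intro _ _ _ _; rfl
  | succ r ih =>
    intro u z0 v h
    show mix (D r) (plast u) (ov D r (pfst u) z0) v = z0 v
    rw [mix_out (h r (by omega))]
    exact ih _ _ _ fun i hi => h i (by omega)

theorem ov_em_in (D : ℕ → Finset V) (zc : V → Al) : ∀ (r : ℕ) (z z0 : V → Al) (v : V),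
    (∃ i < r, v ∈ D i) → ov D r (em D zc r z) z0 v = z v := by
  intro r
  induction r with
  | zero => rintro _ _ _ ⟨i, hi, _⟩; omega
  | succ r ih =>
    rintro z z0 v ⟨i, hi, hv⟩
    show mix (D r) (mix (D r) z zc) (ov D r (em D zc r z) z0) v = z v
    by_cases h : v ∈ D r
    · rw [mix_in h, mix_in h]
    · rw [mix_out h]
      refine ih _ _ _ ⟨i, ?_, hv⟩
      rcases Nat.lt_or_ge i r with h1 | h1
      · exact h1
      · exfalso
        have : i = r := by omega
        subst this
        exact h hv

theorem ov_em {D : ℕ → Finset V} {zc : V → Al} {r : ℕ} {z z0 : V → Al}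
    (h : ∀ v, (∀ i < r, v ∉ D i) → z v = z0 v) : ov D r (em D zc r z) z0 = z := by
  funext v
  by_cases hv : ∃ i < r, v ∈ D i
  · exact ov_em_in D zc r z z0 v hv
  · push Not at hv
    rw [ov_out D r _ _ _ hv, h v hv]

theorem em_congr {D : ℕ → Finset V} {zc : V → Al} : ∀ {r : ℕ} {z z' : V → Al},
    (∀ i < r, ∀ v ∈ D i, z v = z' v) → em D zc r z = em D zc r z' := by
  intro r
  induction r with
  | zero => intro _ _ _; rfl
  | succ r ih =>
    intro z z' h
    have e1 : em D zc r z = em D zc r z' := ih fun i hi => h i (by omega)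
    have e2 : mix (D r) z zc = mix (D r) z' zc := by
      funext v
      by_cases hv : v ∈ D r
      · rw [mix_in hv, mix_in hv, h r (by omega) v hv]
      · rw [mix_out hv, mix_out hv]
    show pmk (em D zc r z) (mix (D r) z zc) = pmk (em D zc r z') (mix (D r) z' zc)
    rw [e1, e2]

theorem em_ov {D : ℕ → Finset V} {zc : V → Al} : ∀ {r : ℕ}, Dis D r → ∀ {u : PT (V → Al) r}
    {z0 : V → Al}, can D zc r u → em D zc r (ov D r u z0) = u := by
  intro r
  induction r with
  | zero => intro _ u _ _; rfl
  | succ r ih =>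
    intro hD u z0 hc
    have e1 : em D zc r (ov D (r + 1) u z0) = em D zc r (ov D r (pfst u) z0) := by
      refine em_congr fun i hi v hv => ?_
      exact mix_out fun h => (disjoint_left.1 (hD i (by omega) r (by omega) (by omega))) hv h
    have e2 : mix (D r) (ov D (r + 1) u z0) zc = plast u := by
      show mix (D r) (mix (D r) (plast u) _) zc = _
      rw [mix_left]
      exact hc.1
    show pmk (em D zc r (ov D (r + 1) u z0)) (mix (D r) (ov D (r + 1) u z0) zc) = u
    rw [e1, e2, ih hD.mono hc.2]
    exact pmk_eta u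

/-- The block of `z0`, in coordinates. -/
noncomputable def TT (D : ℕ → Finset V) (zc : V → Al) (r : ℕ) (E : Finset (V → Al))
    (z0 : V → Al) : Finset (PT (V → Al) r) :=
  (E.filter fun z => ∀ v, (∀ i < r, v ∉ D i) → z v = z0 v).image (em D zc r)

theorem mem_TT {D : ℕ → Finset V} {zc : V → Al} {r : ℕ} (hD : Dis D r) {E : Finset (V → Al)}
    {z0 : V → Al} {u : PT (V → Al) r} :
    u ∈ TT D zc r E z0 ↔ can D zc r u ∧ ov D r u z0 ∈ E := by
  unfold TT
  rw [mem_image]
  constructor
  · rintro ⟨z, hz, rfl⟩
    rw [mem_filter] at hz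
    refine ⟨can_em _ _ _ _, ?_⟩
    rw [ov_em hz.2]
    exact hz.1
  · rintro ⟨h1, h2⟩
    exact ⟨ov D r u z0, mem_filter.2 ⟨h2, fun v hv => ov_out D r u z0 v hv⟩, em_ov hD h1⟩

theorem ov_mix {D : ℕ → Finset V} {A : Finset V} {l : V → Al} : ∀ {r : ℕ},
    (∀ i < r, Disjoint A (D i)) → ∀ (p : PT (V → Al) r) (z0 : V → Al),
    ov D r p (mix A l z0) = mix A l (ov D r p z0) := by
  intro r
  induction r with
  | zero => intro _ _ _; rfl
  | succ r ih =>
    intro hA p z0
    show mix (D r) (plast p) (ov D r (pfst p) (mix A l z0)) =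
      mix A l (mix (D r) (plast p) (ov D r (pfst p) z0))
    rw [ih (fun i hi => hA i (by omega))]
    funext v
    by_cases h1 : v ∈ D r
    · have h2 : v ∉ A := fun h => disjoint_left.1 (hA r (by omega)) h h1
      rw [mix_in h1, mix_out h2, mix_in h1]
    · by_cases h2 : v ∈ A
      · rw [mix_out h1, mix_in h2, mix_in h2]
      · rw [mix_out h1, mix_out h2, mix_out h2, mix_out h1]

theorem rk_empty (w : ℕ) {α : Type} : ∀ r, rk w r (∅ : Finset (PT α r)) := by
  intro r
  induction r with
  | zero => trivial
  | succ r ih =>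
    have h1 : ∀ l : α, slice (∅ : Finset (PT α (r + 1))) l = ∅ := by
      intro l
      unfold slice
      simp
    refine ⟨?_, fun l => ?_⟩
    · intro k x y h _
      rcases Nat.eq_zero_or_pos k with h0 | h0
      · omega
      · have := h ⟨0, h0⟩
        beta_reduce at this
        rw [h1] at this
        simp at this
    · rw [h1]
      exact ih

theorem rk_TT {P : (V → Al) → Prop} {E : Finset (V → Al)} (hE : ∀ z, z ∈ E ↔ P z) {w : ℕ}
    {D B : ℕ → Finset V} (zc : V → Al) (hDB : ∀ i, D i ⊆ B i) : ∀ (r : ℕ), Dis B r →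
    (∀ i < r, TriS P w (B i)) → ∀ z0 : V → Al, rk w r (TT D zc r E z0) := by
  intro r
  induction r with
  | zero => intro _ _ _; trivial
  | succ r ih =>
    intro hB hT z0
    have hD : Dis D (r + 1) := fun i hi j hj hij =>
      disjoint_of_subset_left (hDB i) (disjoint_of_subset_right (hDB j) (hB i hi j hj hij))
    have hsl : ∀ (l : V → Al) (p : PT (V → Al) r), p ∈ slice (TT D zc (r + 1) E z0) l ↔
        (mix (D r) l zc = l ∧ can D zc r p) ∧ mix (D r) l (ov D r p z0) ∈ E := by
      intro l p
      rw [mem_slice, mem_TT hD]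
      rfl
    refine ⟨?_, fun l => ?_⟩
    · intro k x y h1 h2
      refine hT r (by omega) k (fun i => mix (D r) (x i) (ov D r (y i) z0))
        (fun i => (hE _).1 ((hsl _ _).1 (h1 i)).2) fun i j hij => ?_
      have h3 := h2 i j hij
      beta_reduce at h3
      rw [hsl] at h3
      rw [← hE]
      intro h4
      apply h3
      refine ⟨⟨((hsl _ _).1 (h1 i)).1.1, ((hsl _ _).1 (h1 j)).1.2⟩, ?_⟩
      have e1 : mix (D r) (x i) (ov D r (y j) z0) =
          mix (B r) (mix (D r) (x i) (ov D r (y i) z0)) (mix (D r) (x j) (ov D r (y j) z0)) := by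
        funext v
        by_cases h5 : v ∈ D r
        · rw [mix_in h5, mix_in (hDB r h5), mix_in h5]
        · rw [mix_out h5]
          by_cases h6 : v ∈ B r
          · have h7 : ∀ i' < r, v ∉ D i' := fun i' hi' h8 =>
              disjoint_left.1 (hB i' (by omega) r (by omega) (by omega)) (hDB i' h8) h6
            rw [mix_in h6, mix_out h5, ov_out D r _ _ _ h7, ov_out D r _ _ _ h7]
          · rw [mix_out h6, mix_out h5]
      rw [e1]
      exact h4
    · by_cases hl : mix (D r) l zc = l
      · have : slice (TT D zc (r + 1) E z0) l = TT D zc r E (mix (D r) l z0) := by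
          ext p
          rw [hsl, mem_TT hD.mono, ov_mix fun i hi => (hD r (by omega) i (by omega) (by omega))]
          tauto
        rw [this]
        exact ih (fun i hi j hj => hB i (by omega) j (by omega)) (fun i hi => hT i (by omega)) _
      · have : slice (TT D zc (r + 1) E z0) l = ∅ := by
          ext p
          rw [hsl]
          simp [hl]
        rw [this]
        exact rk_empty w r

/-! ### lines -/

/-- Two tuples on the same line in direction `d`. -/
def SL {α : Type} : (r : ℕ) → ℕ → PT α r → PT α r → Prop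
  | 0, _, _, _ => True
  | r + 1, d, u, u' => if d = r then pfst u' = pfst u else plast u' = plast u ∧
      SL r d (pfst u) (pfst u')

theorem lines_le {α : Type} (k : ℕ) : ∀ (r d : ℕ), d < r → ∀ (T T' : Finset (PT α r)),
    (∀ u ∈ T', k ≤ (T.filter fun u' => SL r d u u').card) → k * lin r d T' ≤ T.card := by
  intro r
  induction r with
  | zero => intro d hd; omega
  | succ r ih =>
    intro d hd T T' h
    by_cases hdr : d = r
    · subst hdr
      rw [lin_self]
      obtain ⟨Q, hQ⟩ : ∃ Q, Q = T'.image pfst := ⟨_, rfl⟩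
      rw [← hQ]
      have h1 : (T.filter fun u => pfst u ∈ Q).card =
          ∑ p ∈ Q, ((T.filter fun u => pfst u ∈ Q).filter fun u => pfst u = p).card :=
        card_eq_sum_card_fiberwise (fun u hu => (mem_filter.1 hu).2)
      calc k * Q.card = ∑ p ∈ Q, k := by rw [sum_const, smul_eq_mul, mul_comm]
        _ ≤ ∑ p ∈ Q, ((T.filter fun u => pfst u ∈ Q).filter fun u => pfst u = p).card := by
            refine sum_le_sum fun p hp => ?_
            have hp' := hp
            rw [hQ, mem_image] at hp'
            obtain ⟨u, hu, rfl⟩ := hp'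
            refine (h u hu).trans (card_le_card ?_)
            intro u' hu'
            rw [mem_filter] at hu'
            have h2 : pfst u' = pfst u := by
              have := hu'.2
              unfold SL at this
              rwa [if_pos rfl] at this
            rw [mem_filter, mem_filter]
            exact ⟨⟨hu'.1, by rw [h2]; exact hp⟩, h2⟩
        _ = (T.filter fun u => pfst u ∈ Q).card := h1.symm
        _ ≤ T.card := card_le_card (filter_subset _ _)
    · have hd' : d < r := by omega
      rw [lin_lt hd', mul_sum]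
      calc ∑ l ∈ T'.image plast, k * lin r d (slice T' l)
          ≤ ∑ l ∈ T'.image plast, (slice T l).card := by
            refine sum_le_sum fun l _ => ih d hd' _ _ fun p hp => ?_
            rw [mem_slice] at hp
            refine (h _ hp).trans ?_
            refine card_le_card_of_injOn pfst ?_ ?_
            · intro u' hu'
              rw [mem_coe, mem_filter] at hu'
              have h2 := hu'.2
              unfold SL at h2
              rw [if_neg hdr] at h2
              rw [mem_coe, mem_filter, mem_slice]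
              refine ⟨?_, h2.2⟩
              have h3 : plast u' = l := h2.1
              rw [← h3, pmk_eta]
              exact hu'.1
            · intro u1 hu1 u2 hu2 he
              rw [mem_coe, mem_filter] at hu1 hu2
              have h2 := hu1.2
              have h3 := hu2.2
              unfold SL at h2 h3
              rw [if_neg hdr] at h2 h3
              exact pext he (h2.1.trans h3.1.symm)
        _ ≤ ∑ l ∈ T.image plast ∪ T'.image plast, (slice T l).card :=
            sum_le_sum_of_subset subset_union_right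
        _ = T.card := (card_slices T _ fun u hu =>
            mem_union_left _ (mem_image_of_mem _ hu)).symm

theorem SL_em {D : ℕ → Finset V} {zc : V → Al} : ∀ {r : ℕ}, Dis D r → ∀ {d : ℕ}, d < r →
    ∀ {z z' : V → Al}, (∀ v, v ∉ D d → z' v = z v) → SL r d (em D zc r z) (em D zc r z') := by
  intro r
  induction r with
  | zero => intro _ d hd; omega
  | succ r ih =>
    intro hD d hd z z' h
    by_cases hdr : d = r
    · subst hdr
      unfold SL
      rw [if_pos rfl]
      show em D zc d z' = em D zc d z
      refine em_congr fun i hi v hv => h v fun h1 => ?_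
      exact disjoint_left.1 (hD i (by omega) d (by omega) (by omega)) hv h1
    · unfold SL
      rw [if_neg hdr]
      refine ⟨?_, ih hD.mono (by omega) h⟩
      show mix (D r) z' zc = mix (D r) z zc
      funext v
      by_cases hv : v ∈ D r
      · rw [mix_in hv, mix_in hv]
        exact h v fun h1 => disjoint_left.1 (hD r (by omega) d (by omega) (by omega)) hv h1
      · rw [mix_out hv, mix_out hv]

/-- Few words have many neighbours in all the directions, if no block has a box. -/
theorem bad_words {P : (V → Al) → Prop} {E : Finset (V → Al)} (hE : ∀ z, z ∈ E ↔ P z)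
    {w h a r : ℕ} (hw : 1 ≤ w) (hh : 1 ≤ h) (ha : 1 ≤ a) {D B : ℕ → Finset V} (zc : V → Al)
    (hDB : ∀ i, D i ⊆ B i) (hB : Dis B r) (hT : ∀ i < r, TriS P w (B i))
    {E' : Finset (V → Al)} (hE' : E' ⊆ E)
    (hdeg : ∀ z ∈ E', ∀ d < r, Kf a r w h ≤ (E.filter fun z' => ∀ v, v ∉ D d → z' v = z v).card)
    (hno : ∀ z0, ¬ Box a r (TT D zc r E' z0)) : h * E'.card ≤ E.card := by
  have hD : Dis D r := fun i hi j hj hij =>
    disjoint_of_subset_left (hDB i) (disjoint_of_subset_right (hDB j) (hB i hi j hj hij))
  obtain ⟨lb, hlb⟩ : ∃ lb : (V → Al) → (V → Al), lb = fun z v =>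
      if ∃ i < r, v ∈ D i then zc v else z v := ⟨_, rfl⟩
  have hlb1 : ∀ z v, (∀ i < r, v ∉ D i) → lb z v = z v := by
    intro z v hv
    rw [hlb]
    simp only
    rw [if_neg]
    push Not
    exact hv
  have hblock : ∀ z0 ∈ E.image lb, ∀ F : Finset (V → Al), F ⊆ E →
      (TT D zc r F z0).card = (F.filter fun z => lb z = z0).card := by
    intro z0 hz0 F _
    rw [mem_image] at hz0
    obtain ⟨z1, _, rfl⟩ := hz0
    unfold TT
    have e1 : (F.filter fun z => ∀ v, (∀ i < r, v ∉ D i) → z v = lb z1 v) =
        F.filter fun z => lb z = lb z1 := by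
      ext z
      rw [mem_filter, mem_filter]
      refine and_congr_right fun _ => ?_
      constructor
      · intro h1
        funext v
        by_cases hv : ∃ i < r, v ∈ D i
        · rw [hlb]
          simp only
          rw [if_pos hv, if_pos hv]
        · push Not at hv
          rw [hlb1 z v hv, h1 v hv]
      · intro h1 v hv
        rw [← h1, hlb1 z v hv]
    rw [e1, card_image_of_injOn]
    intro z hz z' hz' he
    rw [mem_coe, mem_filter] at hz hz'
    have k1 : ∀ v, (∀ i < r, v ∉ D i) → z v = lb z1 v := fun v hv => by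
      rw [← hz.2, hlb1 z v hv]
    have k2 : ∀ v, (∀ i < r, v ∉ D i) → z' v = lb z1 v := fun v hv => by
      rw [← hz'.2, hlb1 z' v hv]
    rw [← ov_em (zc := zc) k1, ← ov_em (zc := zc) k2, he]
  have h1 : E.card = ∑ z0 ∈ E.image lb, (E.filter fun z => lb z = z0).card :=
    card_eq_sum_card_fiberwise (fun z hz => mem_image_of_mem _ hz)
  have h2 : E'.card = ∑ z0 ∈ E.image lb, (E'.filter fun z => lb z = z0).card :=
    card_eq_sum_card_fiberwise (fun z hz => mem_image_of_mem _ (hE' hz))
  rw [h1, h2, mul_sum]
  refine sum_le_sum fun z0 hz0 => ?_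
  rw [← hblock z0 hz0 E (Subset.refl _), ← hblock z0 hz0 E' hE']
  by_contra hcon
  push Not at hcon
  have hne : (TT D zc r E' z0).Nonempty := by
    rw [← card_pos]
    by_contra h0
    have : (TT D zc r E' z0).card = 0 := by omega
    rw [this] at hcon
    omega
  refine hno z0 (box_exists a ha r w h hw hh (TT D zc r E z0) (TT D zc r E' z0)
    (rk_TT hE zc hDB r hB hT z0) ?_ hne hcon.le ?_)
  · exact image_subset_image (filter_subset_filter _ hE')
  · intro d hd
    refine lines_le _ r d hd _ _ fun u hu => ?_
    unfold TT at hu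
    rw [mem_image] at hu
    obtain ⟨z, hz, rfl⟩ := hu
    rw [mem_filter] at hz
    refine (hdeg z hz.1 d hd).trans ?_
    refine card_le_card_of_injOn (em D zc r) ?_ ?_
    · intro z' hz'
      rw [mem_coe, mem_filter] at hz'
      rw [mem_coe, mem_filter]
      refine ⟨?_, SL_em hD hd hz'.2⟩
      unfold TT
      refine mem_image_of_mem _ (mem_filter.2 ⟨hz'.1, fun v hv => ?_⟩)
      rw [hz'.2 v (hv d hd), hz.2 v hv]
    · intro z1 hz1 z2 hz2 he
      rw [mem_coe, mem_filter] at hz1 hz2
      have k1 : ∀ v, (∀ i < r, v ∉ D i) → z1 v = z0 v := fun v hv => by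
        rw [hz1.2 v (hv d hd), hz.2 v hv]
      have k2 : ∀ v, (∀ i < r, v ∉ D i) → z2 v = z0 v := fun v hv => by
        rw [hz2.2 v (hv d hd), hz.2 v hv]
      rw [← ov_em (zc := zc) k1, ← ov_em (zc := zc) k2, he]

/-! ### from boxes to grids -/

/-- The tuple of the chosen elements. -/
def mk {α : Type} {a : ℕ} (g : ℕ → Fin a → α) (u : ℕ → Fin a) : (r : ℕ) → PT α r
  | 0 => ()
  | r + 1 => pmk (mk g u r) (g r (u r))

theorem mk_congr {α : Type} {a : ℕ} {g g' : ℕ → Fin a → α} {u : ℕ → Fin a} : ∀ {r : ℕ},
    (∀ i < r, g i = g' i) → mk g u r = mk g' u r := by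
  intro r
  induction r with
  | zero => intro _; rfl
  | succ r ih =>
    intro h
    show pmk (mk g u r) (g r (u r)) = pmk (mk g' u r) (g' r (u r))
    rw [ih fun i hi => h i (by omega), h r (by omega)]

theorem box_fun {α : Type} [Nonempty α] {a : ℕ} : ∀ {r : ℕ} {S : Finset (PT α r)}, Box a r S →
    ∃ g : ℕ → Fin a → α, (∀ i < r, Function.Injective (g i)) ∧ ∀ u : ℕ → Fin a, mk g u r ∈ S := by
  intro r
  induction r with
  | zero =>
    intro S h
    obtain ⟨x⟩ := ‹Nonempty α›
    obtain ⟨y, hy⟩ := h
    exact ⟨fun _ _ => x, fun i hi => by omega, fun u => hy⟩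
  | succ r ih =>
    intro S h
    obtain ⟨L, hL, S', hS', hb⟩ := h
    obtain ⟨g, hg1, hg2⟩ := ih hb
    obtain ⟨e⟩ : Nonempty (Fin a ≃ L) := ⟨(Fintype.equivFinOfCardEq (by simp [hL])).symm⟩
    refine ⟨fun i => if i = r then fun x => (e x : α) else g i, ?_, ?_⟩
    · intro i hi
      by_cases h1 : i = r
      · simp only [h1, if_true]
        exact fun x y hxy => e.injective (Subtype.ext hxy)
      · simp only [h1, if_false]
        exact hg1 i (by omega)
    · intro u
      have e1 : mk (fun i => if i = r then fun x => (e x : α) else g i) u r = mk g u r :=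
        mk_congr fun i hi => by
          have : i ≠ r := by omega
          simp [this]
      show pmk (mk (fun i => if i = r then fun x => (e x : α) else g i) u r)
        ((if r = r then fun x => (e x : α) else g r) (u r)) ∈ S
      rw [e1, if_pos rfl, ← mem_slice]
      exact hS' _ (hg2 u) _ (e (u r)).2

theorem ov_mk_in {D : ℕ → Finset V} {a : ℕ} {g : ℕ → Fin a → (V → Al)} {u : ℕ → Fin a}
    {z0 : V → Al} : ∀ {r : ℕ}, Dis D r → ∀ {i : ℕ}, i < r → ∀ {v : V}, v ∈ D i →
    ov D r (mk g u r) z0 v = g i (u i) v := by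
  intro r
  induction r with
  | zero => intro _ i hi; omega
  | succ r ih =>
    intro hD i hi v hv
    show mix (D r) (g r (u r)) (ov D r (mk g u r) z0) v = _
    by_cases h : i = r
    · subst h
      rw [mix_in hv]
    · have h1 : v ∉ D r := fun h2 =>
        disjoint_left.1 (hD i hi r (by omega) h) hv h2
      rw [mix_out h1]
      exact ih hD.mono (by omega) hv

theorem can_mk {D : ℕ → Finset V} {zc : V → Al} {a : ℕ} {g : ℕ → Fin a → (V → Al)}
    {u : ℕ → Fin a} : ∀ {r : ℕ}, can D zc r (mk g u r) → ∀ i < r,
    mix (D i) (g i (u i)) zc = g i (u i) := by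
  intro r
  induction r with
  | zero => intro _ i hi; omega
  | succ r ih =>
    intro h i hi
    by_cases h1 : i = r
    · subst h1
      exact h.1
    · exact ih h.2 i (by omega)

end Pool.Agent.V11163.ZG
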