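import Pool.Agent.V11163.ZG.Cnt
import Pool.Agent.V11163.ZK.Final
import Pool.Agent.H607R2.BW.EDG
import Pool.Agent.H607R2.BW.ORD
import Pool.Agent.H607R2.BW.BES3
import Pool.Agent.H607R2.BW.BESR

/-!
# Hypergraphs recognized by tree tensor networks
-/

set_option autoImplicit false

open Finset

namespace Pool.Agent.V11163.ZG

open Pool.Agent.TH700.PA
open Pool.Agent.V11163.ZK (TriS TriN cpl size_reads)
open Pool.Agent.H607R2.BW (Str GridIn)

theorem kf_le (a : ℕ) : ∀ r : ℕ, ∃ C e : ℕ, ∀ w h : ℕ, 1 ≤ w → 1 ≤ h →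
    Kf a r w h ≤ C * (w * h) ^ e := by
  intro r
  induction r with
  | zero => exact ⟨1, 0, fun w h _ _ => by simp [Kf]⟩
  | succ r ih =>
    obtain ⟨C, e, hC⟩ := ih
    refine ⟨8 * (r + 1) * C * (4 * (4 * a) ^ a) ^ e + 16 * a, (a + 2) * e + 2, ?_⟩
    intro w h hw hh
    rcases Nat.eq_zero_or_pos a with ha | ha
    · subst ha
      have h1 := hC w (4 * h * w * (4 * 0 * h * w) ^ 0) hw (by
        have : 0 < 4 * h * w * (4 * 0 * h * w) ^ 0 := by simp; omega
        omega)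
      show 4 * (r + 1) * h * (2 * h * w * Kf 0 r w (4 * h * w * (4 * 0 * h * w) ^ 0)) +
        4 * h * w * (4 * 0 * h * w) ≤ _
      obtain ⟨x, hx⟩ : ∃ x, x = w * h := ⟨_, rfl⟩
      have hx1 : 1 ≤ x := by rw [hx]; exact Nat.mul_pos hw hh
      have e1 : w * (4 * h * w * (4 * 0 * h * w) ^ 0) ≤ 4 * x ^ 2 := by
        rw [hx]
        have : w * (4 * h * w * (4 * 0 * h * w) ^ 0) = 4 * (w * h) * w := by simp; ring
        rw [this]
        calc 4 * (w * h) * w ≤ 4 * (w * h) * (w * h) :=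
              Nat.mul_le_mul_left _ (Nat.le_mul_of_pos_right _ hh)
          _ = _ := by ring
      calc 4 * (r + 1) * h * (2 * h * w * Kf 0 r w (4 * h * w * (4 * 0 * h * w) ^ 0)) +
            4 * h * w * (4 * 0 * h * w)
          ≤ 4 * (r + 1) * h * (2 * h * w * (C * (4 * x ^ 2) ^ e)) + 0 := by
            refine Nat.add_le_add ?_ (by simp)
            exact Nat.mul_le_mul_left _ (Nat.mul_le_mul_left _
              (h1.trans (Nat.mul_le_mul_left _ (Nat.pow_le_pow_left e1 e))))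
        _ = 8 * (r + 1) * C * 4 ^ e * (x * h * x ^ (2 * e)) := by
            rw [hx]
            ring
        _ ≤ 8 * (r + 1) * C * 4 ^ e * (x * x * x ^ (2 * e)) := by
            refine Nat.mul_le_mul_left _ (Nat.mul_le_mul_right _ (Nat.mul_le_mul_left _ ?_))
            rw [hx]
            exact Nat.le_mul_of_pos_left _ hw
        _ = (8 * (r + 1) * C * (4 * (4 * 0) ^ 0) ^ e + 16 * 0) * x ^ ((0 + 2) * e + 2) := by
            ring
        _ = _ := by rw [hx]
    · obtain ⟨x, hx⟩ : ∃ x, x = w * h := ⟨_, rfl⟩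
      have hx1 : 1 ≤ x := by rw [hx]; exact Nat.mul_pos hw hh
      have hpos : 1 ≤ 4 * h * w * (4 * a * h * w) ^ a := by
        have : 0 < 4 * h * w * (4 * a * h * w) ^ a := by positivity
        omega
      have h1 := hC w (4 * h * w * (4 * a * h * w) ^ a) hw hpos
      show 4 * (r + 1) * h * (2 * h * w * Kf a r w (4 * h * w * (4 * a * h * w) ^ a)) +
        4 * h * w * (4 * a * h * w) ≤ _
      have e1 : w * (4 * h * w * (4 * a * h * w) ^ a) ≤ 4 * (4 * a) ^ a * x ^ (a + 2) := by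
        have : w * (4 * h * w * (4 * a * h * w) ^ a) = 4 * (4 * a) ^ a * (x ^ (a + 1) * w) := by
          rw [hx, show 4 * a * h * w = 4 * a * (w * h) by ring, mul_pow]
          ring
        rw [this]
        refine Nat.mul_le_mul_left _ ?_
        rw [show a + 2 = (a + 1) + 1 by ring, pow_succ x (a + 1)]
        refine Nat.mul_le_mul_left _ ?_
        rw [hx]
        exact Nat.le_mul_of_pos_right _ hh
      have e2 : h ≤ x := by rw [hx]; exact Nat.le_mul_of_pos_left _ hw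
      calc 4 * (r + 1) * h * (2 * h * w * Kf a r w (4 * h * w * (4 * a * h * w) ^ a)) +
            4 * h * w * (4 * a * h * w)
          ≤ 4 * (r + 1) * h * (2 * h * w * (C * (4 * (4 * a) ^ a * x ^ (a + 2)) ^ e)) +
            4 * h * w * (4 * a * h * w) := by
            refine Nat.add_le_add_right ?_ _
            exact Nat.mul_le_mul_left _ (Nat.mul_le_mul_left _
              (h1.trans (Nat.mul_le_mul_left _ (Nat.pow_le_pow_left e1 e))))
        _ = 8 * (r + 1) * C * (4 * (4 * a) ^ a) ^ e * (h * x * x ^ ((a + 2) * e)) +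
            16 * a * x ^ 2 := by
            rw [hx, mul_pow (4 * (4 * a) ^ a), ← pow_mul]
            ring
        _ ≤ 8 * (r + 1) * C * (4 * (4 * a) ^ a) ^ e * (x * x * x ^ ((a + 2) * e)) +
            16 * a * x ^ ((a + 2) * e + 2) := by
            refine Nat.add_le_add ?_ ?_
            · exact Nat.mul_le_mul_left _ (Nat.mul_le_mul_right _ (Nat.mul_le_mul_right _ e2))
            · exact Nat.mul_le_mul_left _ (Nat.pow_le_pow_right hx1 (by omega))
        _ = (8 * (r + 1) * C * (4 * (4 * a) ^ a) ^ e + 16 * a) * x ^ ((a + 2) * e + 2) := by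
            ring
        _ = _ := by rw [hx]

/-- The bound for the words recognized by a network without grids. -/
theorem words_le (r a s : ℕ) (hr : 1 ≤ r) (ha : 1 ≤ a) (hs : 1 ≤ s) : ∃ C e : ℕ,
    ∀ (m : ℕ) (K W : Type) [Field K] [Fintype W] (T : Net K (Fin r × Fin m) Bool W) (c : W → K),
      (∀ v, T.reads v ≤ 1) → ¬ HasGrid r a (fun v : Fin r × Fin m => v.1.1)
        (fun z => T.value c z ≠ 0) →
      Nat.card {z : Fin r × Fin m → Bool // T.value c z ≠ 0} ≤
        C * Fintype.card W ^ e * 2 ^ (m + m / s) := by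
  classical
  obtain ⟨C1, e1, hC1⟩ := kf_le a r
  obtain ⟨t, ht⟩ : ∃ t, t = 8 * s * r ^ 2 + 1 := ⟨_, rfl⟩
  refine ⟨2 * r * 2 ^ t * (C1 * (2 * t ^ r) ^ e1) ^ t + 2 ^ (2 * s * r ^ 2), 3 * (e1 + 1) * t, ?_⟩
  intro m K W _ _ T c h1 hno
  rcases isEmpty_or_nonempty {z : Fin r × Fin m → Bool // T.value c z ≠ 0} with hE | ⟨⟨z1, hz1⟩⟩
  · rw [Nat.card_of_isEmpty]
    exact Nat.zero_le _
  have hW : Nonempty W := by
    by_contra hW
    rw [not_nonempty_iff] at hW
    apply hz1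
    unfold Net.value
    exact Finset.sum_eq_zero (fun k _ => (hW.false k).elim)
  obtain ⟨w, hw⟩ : ∃ w, w = Fintype.card W := ⟨_, rfl⟩
  have hw1 : 1 ≤ w := by rw [hw]; exact Fintype.card_pos
  rw [← hw]
  have htot : Nat.card {z : Fin r × Fin m → Bool // T.value c z ≠ 0} ≤ 2 ^ (r * m) := by
    calc _ ≤ Nat.card (Fin r × Fin m → Bool) := Nat.card_le_card_of_injective _ Subtype.val_injective
      _ = 2 ^ (r * m) := by simp
  rcases Nat.lt_or_ge m (2 * s * r) with hm | hm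
  · calc _ ≤ 2 ^ (r * m) := htot
      _ ≤ 2 ^ (2 * s * r ^ 2) := Nat.pow_le_pow_right (by norm_num) (by nlinarith)
      _ = 2 ^ (2 * s * r ^ 2) * 1 * 1 := by ring
      _ ≤ (2 * r * 2 ^ t * (C1 * (2 * t ^ r) ^ e1) ^ t + 2 ^ (2 * s * r ^ 2)) *
          w ^ (3 * (e1 + 1) * t) * 2 ^ (m + m / s) :=
        Nat.mul_le_mul (Nat.mul_le_mul (Nat.le_add_left _ _) (Nat.pow_pos hw1))
          Nat.one_le_two_pow
  -- the parts
  obtain ⟨θ, hθ⟩ : ∃ θ, θ = m / (2 * s * r) := ⟨_, rfl⟩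
  have hsr : 0 < 2 * s * r := by positivity
  have hθ1 : 1 ≤ θ := by rw [hθ]; exact Nat.div_pos hm hsr
  have hθm : θ * (2 * s * r) ≤ m := by rw [hθ]; exact Nat.div_mul_le_self _ _
  have hmθ : m < (θ + 1) * (2 * s * r) := by
    rw [hθ]
    exact (Nat.div_lt_iff_lt_mul hsr).1 (Nat.lt_succ_self _)
  obtain ⟨T', g1, g2, -⟩ := exists_ext T h1
  have hval : ∀ z, T'.value c z = T.value c z := by
    intro z
    unfold Net.value
    rw [g2]
  have hRk : ∀ A ∈ cutsv T', Rk w (fun z => T'.value c z) A := by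
    intro A hA
    rw [hw]
    exact rk_of_cut (cutsv_cut T' c (fun v => (g1 v).le) A hA)
  obtain ⟨B, hB1, hB2, hB3⟩ := exists_parts hw1 (univ : Finset (Fin r × Fin m)) hθ1 T' g1 hRk
    (t := t) (by
      rw [card_univ, Fintype.card_prod, Fintype.card_fin, Fintype.card_fin, ht]
      have : m ≤ 4 * s * r * θ := by nlinarith
      have h3 : 2 * (r * m) ≤ 2 * (r * (4 * s * r * θ)) :=
        Nat.mul_le_mul_left _ (Nat.mul_le_mul_left _ this)
      calc 2 * (r * m) + θ ≤ 2 * (r * (4 * s * r * θ)) + θ := Nat.add_le_add_right h3 _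
        _ = θ * (8 * s * r ^ 2 + 1) := by ring)
  have hcount := count_parts (P := fun z => T.value c z ≠ 0)
    (E := univ.filter fun z : Fin r × Fin m → Bool => T.value c z ≠ 0)
    (fun z => by simp) (w := w * (w * w)) (t := t) (M := 2 ^ (2 * θ)) (n := 2 ^ m) (a := a) hr
    (Nat.mul_pos hw1 (Nat.mul_pos hw1 hw1)) (by omega) ha (fun v : Fin r × Fin m => v.1.1)
    (by
      intro j hj
      rw [Fintype.card_bool]
      refine Nat.pow_le_pow_right (by norm_num) ?_
      have : (univ.filter fun v : Fin r × Fin m => v.1.1 = j).card ≤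
          (univ : Finset (Fin m)).card := by
        refine card_le_card_of_injOn (fun v => v.2) (fun _ _ => mem_coe.2 (mem_univ _)) ?_
        intro v hv v' hv' he
        rw [mem_coe, mem_filter] at hv hv'
        exact Prod.ext (Fin.ext (hv.2.trans hv'.2.symm)) he
      rwa [card_univ, Fintype.card_fin] at this)
    B hB3 (fun p p' hpp => hB2 p p' hpp)
    (by
      intro p
      have h3 := tri_of_rk (hB1 p).2.1
      simp only [hval] at h3
      exact h3)
    (by
      intro p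
      rw [Fintype.card_bool]
      refine Nat.pow_le_pow_right (by norm_num) ?_
      have h3 := (hB1 p).2.2
      rwa [univ_inter] at h3)
    Nat.one_le_two_pow hno
  have hNat : Nat.card {z : Fin r × Fin m → Bool // T.value c z ≠ 0} =
      (univ.filter fun z : Fin r × Fin m → Bool => T.value c z ≠ 0).card := by
    rw [Nat.card_eq_fintype_card, Fintype.card_subtype]
  rw [hNat]
  refine hcount.trans ?_
  have k1 := hC1 (w * (w * w)) (2 * t ^ r) (Nat.mul_pos hw1 (Nat.mul_pos hw1 hw1)) (by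
    have : 0 < 2 * t ^ r := by
      have : 0 < t := by omega
      positivity
    omega)
  have k2 : (2 ^ (2 * θ)) ^ (r - 1) ≤ 2 ^ (m / s) := by
    rw [← pow_mul]
    refine Nat.pow_le_pow_right (by norm_num) ?_
    rw [Nat.le_div_iff_mul_le (by omega)]
    calc 2 * θ * (r - 1) * s ≤ 2 * θ * r * s :=
          Nat.mul_le_mul_right _ (Nat.mul_le_mul_left _ (by omega))
      _ = θ * (2 * s * r) := by ring
      _ ≤ m := hθm
  calc 2 * (r * (2 ^ t * (2 ^ m * ((Kf a r (w * (w * w)) (2 * t ^ r) * (w * (w * w))) ^ t *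
        (2 ^ (2 * θ)) ^ (r - 1)))))
      ≤ 2 * (r * (2 ^ t * (2 ^ m * ((C1 * (w * (w * w) * (2 * t ^ r)) ^ e1 * (w * (w * w))) ^ t *
        2 ^ (m / s))))) := by
        refine Nat.mul_le_mul_left _ (Nat.mul_le_mul_left _ (Nat.mul_le_mul_left _
          (Nat.mul_le_mul_left _ (Nat.mul_le_mul ?_ k2))))
        exact Nat.pow_le_pow_left (Nat.mul_le_mul_right _ k1) t
    _ = (2 * r * 2 ^ t * (C1 * (2 * t ^ r) ^ e1) ^ t) * w ^ (3 * (e1 + 1) * t) *
        2 ^ (m + m / s) := by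
        have e2 : C1 * (w * (w * w) * (2 * t ^ r)) ^ e1 * (w * (w * w)) =
            (C1 * (2 * t ^ r) ^ e1) * w ^ (3 * (e1 + 1)) := by
          rw [mul_pow, show w * (w * w) = w ^ 3 by ring]
          rw [← pow_mul, show 3 * (e1 + 1) = 3 * e1 + 3 by ring, pow_add]
          ring
        rw [e2, mul_pow, ← pow_mul, pow_add 2 m]
        ring
    _ ≤ _ := by
        refine Nat.mul_le_mul_right _ (Nat.mul_le_mul_right _ (Nat.le_add_right _ _))

/-- The relation `R` between `r` strings is recognized by a tree tensor network. -/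
def RelNet (K W : Type) [Field K] [Fintype W] {r m : ℕ} (R : (Fin r → Str m) → Prop) : Prop :=
  ∃ (T : Net K (Fin r × Fin m) Bool W) (c : W → K), (∀ v, T.reads v ≤ 1) ∧
    ∀ x : Fin r → Str m, T.value c (fun v => x v.1 v.2) ≠ 0 ↔ R x

/-- Relations recognized by networks without grids. -/
theorem rel_le (r a s : ℕ) (hr : 1 ≤ r) (ha : 1 ≤ a) (hs : 1 ≤ s) : ∃ C e : ℕ,
    ∀ (m : ℕ) (K W : Type) [Field K] [Fintype W] (R : (Fin r → Str m) → Prop), RelNet K W R →
      ¬ GridIn (fun _ : Fin r => a) R →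
      Nat.card {x : Fin r → Str m // R x} ≤ C * Fintype.card W ^ e * 2 ^ (m + m / s) := by
  obtain ⟨C, e, h⟩ := words_le r a s hr ha hs
  refine ⟨C, e, fun m K W _ _ R hR hno => ?_⟩
  obtain ⟨T, c, h1, h2⟩ := hR
  have h3 : Nat.card {x : Fin r → Str m // R x} =
      Nat.card {z : Fin r × Fin m → Bool // T.value c z ≠ 0} := by
    refine Nat.card_congr (Equiv.subtypeEquiv (Equiv.curry (Fin r) (Fin m) Bool).symm ?_)
    intro x
    rw [← h2]
    rfl
  rw [h3]
  refine h m K W T c h1 ?_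
  rintro ⟨ψ, p1, p2, p3⟩
  apply hno
  obtain ⟨ext, hext⟩ : ∃ ext : (Fin r → Fin a) → (ℕ → Fin a), ext = fun u i =>
      if h : i < r then u ⟨i, h⟩ else ⟨0, ha⟩ := ⟨_, rfl⟩
  have hext1 : ∀ u (i : Fin r), ext u i.1 = u i := by
    intro u i
    rw [hext]
    simp only
    rw [dif_pos i.2]
  refine ⟨fun u j i => ψ (ext u) (j, i), ?_, ?_, ?_⟩
  · intro u
    rw [← h2]
    exact p1 _
  · intro u u' huu
    by_contra hne
    obtain ⟨i, hi⟩ := Function.ne_iff.1 hne
    refine p2 (ext u) (ext u') ⟨i.1, i.2, ?_⟩ ?_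
    · rw [hext1, hext1]
      exact hi
    · funext v
      exact congrFun (congrFun huu v.1) v.2
  · intro j u u' h4
    funext i
    refine p3 _ _ _ fun i' hi' => ?_
    by_cases h5 : i' < r
    · have e1 := hext1 u ⟨i', h5⟩
      have e2 := hext1 u' ⟨i', h5⟩
      simp only at e1 e2
      rw [e1, e2]
      exact h4 ⟨i', h5⟩ fun h6 => hi' (by rw [← h6])
    · rw [hext]
      simp only
      rw [dif_neg h5, dif_neg h5]

/-- The `r`-uniform hypergraph `E` on the strings of `m` bits is recognized by a tree tensor network over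
the field `K` with indices in `W`: it reads every bit of the `r` strings at most once and its value is
not zero if and only if the strings are different and form an edge. -/
def HyperNet (K W : Type) [Field K] [Fintype W] {m : ℕ} (r : ℕ) (E : Finset (Finset (Str m))) :
    Prop :=
  open Classical in
  ∃ (T : Net K (Fin r × Fin m) Bool W) (c : W → K), (∀ v, T.reads v ≤ 1) ∧
    ∀ x : Fin r → Str m, T.value c (fun v => x v.1 v.2) ≠ 0 ↔
      Function.Injective x ∧ Finset.univ.image x ∈ E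

/-- Sparse configurations in triple systems. -/
theorem bes3_le (k s : ℕ) (hk : 1334 ≤ k) (hs : 1 ≤ s) : open Classical in ∃ C e : ℕ,
    ∀ (m : ℕ) (K W : Type) [Field K] [Fintype W] (E : Finset (Finset (Str m))),
      (∀ t ∈ E, t.card = 3) → HyperNet K W 3 E →
      (∀ T ⊆ E, T.card = k → k + 3 < (T.biUnion id).card) →
      E.card ≤ C * Fintype.card W ^ e * 2 ^ (m + m / s) := by
  classical
  have hex : ∃ p, 6 * k ≤ p ^ 3 := ⟨6 * k, by
    calc 6 * k = (6 * k) ^ 1 := (pow_one _).symm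
      _ ≤ (6 * k) ^ 3 := Nat.pow_le_pow_right (by omega) (by norm_num)⟩
  obtain ⟨p, hp⟩ : ∃ p, p = Nat.find hex := ⟨_, rfl⟩
  have hp1 : 6 * k ≤ p ^ 3 := by rw [hp]; exact Nat.find_spec hex
  have hp21 : 21 ≤ p := by
    by_contra hcon
    push Not at hcon
    have h1 : p ≤ 20 := by omega
    have h2 : p ^ 3 ≤ 20 ^ 3 := Nat.pow_le_pow_left h1 3
    omega
  have hp3 : (p - 1) ^ 3 < 6 * k := by
    have := Nat.find_min hex (m := p - 1) (by omega)
    omega
  obtain ⟨C, e, h⟩ := rel_le 3 p s (by norm_num) (by omega) hs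
  refine ⟨C, e, fun m K W _ _ E hcard hE hf => ?_⟩
  have hno : ¬ GridIn (fun _ : Fin 3 => p)
      (fun x : Fin 3 → Str m => Function.Injective x ∧ Finset.univ.image x ∈ E) := by
    intro hgrid
    obtain ⟨T, hT1, hT2, hT3⟩ := Pool.Agent.H607R2.BW.t_EDG m 3 k p E (by norm_num)
      (by rw [show Nat.factorial 3 = 6 from rfl]; exact hp1) (by convert hgrid)
    have h6 := Pool.Agent.H607R2.BW.bes3_poly p hp21
    have h7 : (T.biUnion id).card ≤ 3 * p ^ (3 - 1) := by
      convert hT3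
    have h8 : (3 : ℕ) - 1 = 2 := rfl
    rw [h8] at h7
    have h9 := hf T hT1 hT2
    omega
  have h1 := h m K W (fun x : Fin 3 → Str m => Function.Injective x ∧ Finset.univ.image x ∈ E)
    (by
      obtain ⟨T, c, h3, h4⟩ := hE
      refine ⟨T, c, h3, fun x => ?_⟩
      rw [h4]) hno
  have h2 := Pool.Agent.H607R2.BW.t_ORD m 3 E hcard
  have h4 : Nat.card {x : Fin 3 → Str m // Function.Injective x ∧ Finset.univ.image x ∈ E} =
    Nat.factorial 3 * E.card := by
    convert h2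
  rw [h4] at h1
  refine le_trans ?_ h1
  exact Nat.le_mul_of_pos_left _ (Nat.factorial_pos 3)

/-- Sparse configurations in uniform hypergraphs. -/
theorem besr_le (r e0 s : ℕ) (hr : 3 ≤ r) (he : (r * 2 ^ r * r.factorial) ^ r ≤ e0) (hs : 1 ≤ s) :
    open Classical in ∃ C e : ℕ,
    ∀ (m : ℕ) (K W : Type) [Field K] [Fintype W] (E : Finset (Finset (Str m))),
      (∀ t ∈ E, t.card = r) → HyperNet K W r E →
      (∀ T ⊆ E, T.card = e0 → (r - 2) * e0 + 3 < (T.biUnion id).card) →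
      E.card ≤ C * Fintype.card W ^ e * 2 ^ (m + m / s) := by
  classical
  have hfac : 1 ≤ r.factorial := Nat.factorial_pos r
  obtain ⟨K0, hK⟩ : ∃ K0, K0 = r * 2 ^ r * r.factorial := ⟨_, rfl⟩
  rw [← hK] at he
  have h2r : 1 ≤ 2 ^ r := Nat.one_le_two_pow
  have hK1 : 3 ≤ K0 := by
    rw [hK]
    calc 3 ≤ r := hr
      _ = r * 1 * 1 := by ring
      _ ≤ r * 2 ^ r * r.factorial := by gcongr
  have he1 : 3 ≤ e0 := by
    refine le_trans ?_ he
    calc 3 ≤ K0 := hK1
      _ = K0 ^ 1 := (pow_one K0).symm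
      _ ≤ K0 ^ r := Nat.pow_le_pow_right (by omega) (by omega)
  have hex : ∃ a, r.factorial * e0 ≤ (2 ^ a) ^ r := by
    refine ⟨r.factorial * e0, ?_⟩
    calc r.factorial * e0 ≤ 2 ^ (r.factorial * e0) := Nat.lt_two_pow_self.le
      _ = (2 ^ (r.factorial * e0)) ^ 1 := (pow_one _).symm
      _ ≤ (2 ^ (r.factorial * e0)) ^ r := Nat.pow_le_pow_right Nat.one_le_two_pow (by omega)
  obtain ⟨a, ha⟩ : ∃ a, a = Nat.find hex := ⟨_, rfl⟩
  have ha1 : r.factorial * e0 ≤ (2 ^ a) ^ r := by rw [ha]; exact Nat.find_spec hex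
  have hre : 3 ≤ r.factorial * e0 := by
    calc 3 ≤ e0 := he1
      _ = 1 * e0 := (one_mul e0).symm
      _ ≤ r.factorial * e0 := Nat.mul_le_mul_right e0 hfac
  have ha0 : 1 ≤ a := by
    rcases Nat.eq_zero_or_pos a with h | h
    · rw [h] at ha1
      simp at ha1
      omega
    · exact h
  have ha2 : (2 ^ (a - 1)) ^ r < r.factorial * e0 := by
    have := Nat.find_min hex (m := a - 1) (by omega)
    omega
  have hpr : (2 ^ a) ^ r = 2 ^ r * (2 ^ (a - 1)) ^ r := by
    rw [← mul_pow, ← pow_succ']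
    congr 2
    omega
  have hKp : K0 ≤ 2 ^ a := by
    have h8 : K0 ^ r ≤ (2 ^ a) ^ r := by
      calc K0 ^ r ≤ e0 := he
        _ = 1 * e0 := (one_mul e0).symm
        _ ≤ r.factorial * e0 := Nat.mul_le_mul_right e0 hfac
        _ ≤ (2 ^ a) ^ r := ha1
    exact (Nat.pow_le_pow_iff_left (by omega)).1 h8
  have h9 : r * (2 ^ a) ^ (r - 1) * K0 < e0 * K0 := by
    calc r * (2 ^ a) ^ (r - 1) * K0 ≤ r * (2 ^ a) ^ (r - 1) * 2 ^ a :=
          Nat.mul_le_mul_left _ hKp
      _ = r * (2 ^ a) ^ r := by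
          rw [mul_assoc, ← pow_succ]
          congr 2
          omega
      _ = r * (2 ^ r * (2 ^ (a - 1)) ^ r) := by rw [hpr]
      _ < r * (2 ^ r * (r.factorial * e0)) := by
          apply Nat.mul_lt_mul_of_pos_left _ (by omega)
          exact Nat.mul_lt_mul_of_pos_left ha2 (by omega)
      _ = e0 * K0 := by rw [hK]; ring
  have h10 : r * (2 ^ a) ^ (r - 1) < e0 := lt_of_mul_lt_mul_right h9 (Nat.zero_le K0)
  have h11 : e0 ≤ (r - 2) * e0 := by
    calc e0 = 1 * e0 := (one_mul e0).symm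
      _ ≤ (r - 2) * e0 := Nat.mul_le_mul_right e0 (by omega)
  obtain ⟨C, e, h⟩ := rel_le r (2 ^ a) s (by omega) Nat.one_le_two_pow hs
  refine ⟨C, e, fun m K W _ _ E hcard hE hf => ?_⟩
  have hno : ¬ GridIn (fun _ : Fin r => 2 ^ a)
      (fun x : Fin r → Str m => Function.Injective x ∧ Finset.univ.image x ∈ E) := by
    intro hgrid
    obtain ⟨T, hT1, hT2, hT3⟩ := Pool.Agent.H607R2.BW.t_EDG m r e0 (2 ^ a) E (by omega) ha1
      (by convert hgrid)
    have h7 : (T.biUnion id).card ≤ r * (2 ^ a) ^ (r - 1) := by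
      convert hT3
    have h9 := hf T hT1 hT2
    omega
  have h1 := h m K W (fun x : Fin r → Str m => Function.Injective x ∧ Finset.univ.image x ∈ E)
    (by
      obtain ⟨T, c, h3, h4⟩ := hE
      refine ⟨T, c, h3, fun x => ?_⟩
      rw [h4]) hno
  have h2 := Pool.Agent.H607R2.BW.t_ORD m r E hcard
  have h4 : Nat.card {x : Fin r → Str m // Function.Injective x ∧ Finset.univ.image x ∈ E} =
    r.factorial * E.card := by
    convert h2
  rw [h4] at h1
  refine le_trans ?_ h1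
  exact Nat.le_mul_of_pos_left _ (Nat.factorial_pos r)

/-- The asymptotic form. -/
theorem hyper_asy {C e s : ℕ} (hs : 1 ≤ s) {δ : ℝ} (hδ : 2 / (s : ℝ) ≤ δ) (hδ0 : 0 < δ) :
    ∃ γ : ℝ, 0 < γ ∧ ∃ m₀ : ℕ, ∀ m w E : ℕ, m₀ ≤ m → (w : ℝ) ≤ ((2 : ℝ) ^ m) ^ γ →
      E ≤ C * w ^ e * 2 ^ (m + m / s) → (E : ℝ) ≤ ((2 : ℝ) ^ m) ^ (1 + δ) := by
  refine ⟨δ / (4 * (e + 1)), by positivity, ?_⟩
  obtain ⟨m₀, h0⟩ := Pool.Agent.V11163.ZK.pow_beats (C : ℝ) (q := 2) le_rfl
    (show (0 : ℝ) < δ / 4 by positivity) one_pos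
  refine ⟨max m₀ 1, fun m w E hm hw hE => ?_⟩
  have hm0 : m₀ ≤ m := (le_max_left _ _).trans hm
  have hm1 : 1 ≤ m := (le_max_right _ _).trans hm
  have hn : (0 : ℝ) < (2 : ℝ) ^ m := by positivity
  have hn1 : (1 : ℝ) ≤ (2 : ℝ) ^ m := one_le_pow₀ (by norm_num)
  have h1 : (C : ℝ) ≤ ((2 : ℝ) ^ m) ^ (δ / 4) := by
    have h2 := h0 m hm0
    rw [one_mul] at h2
    have h3 : (C : ℝ) * 1 ≤ (C : ℝ) * (m : ℝ) ^ 4 :=
      mul_le_mul_of_nonneg_left (one_le_pow₀ (by exact_mod_cast hm1)) (by positivity)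
    push_cast at h2
    linarith
  have h2 : (w : ℝ) ^ e ≤ ((2 : ℝ) ^ m) ^ (δ / 4) := by
    calc (w : ℝ) ^ e ≤ (((2 : ℝ) ^ m) ^ (δ / (4 * (e + 1)))) ^ e :=
          pow_le_pow_left₀ (by positivity) hw e
      _ = ((2 : ℝ) ^ m) ^ (δ / (4 * (e + 1)) * e) := by
          rw [← Real.rpow_natCast, ← Real.rpow_mul hn.le]
      _ ≤ _ := by
          refine Real.rpow_le_rpow_of_exponent_le hn1 ?_
          rw [div_mul_eq_mul_div, div_le_div_iff₀ (by positivity) (by norm_num)]
          nlinarith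
  have hs0 : (0 : ℝ) < s := by exact_mod_cast (by omega : 0 < s)
  have h3 : ((2 : ℝ) ^ (m + m / s)) ≤ ((2 : ℝ) ^ m) ^ (1 + δ / 2) := by
    have e1 : ((2 : ℝ) ^ m) ^ (1 + δ / 2) = (2 : ℝ) ^ ((m : ℝ) * (1 + δ / 2)) := by
      rw [← Real.rpow_natCast 2 m, ← Real.rpow_mul (by norm_num)]
    rw [e1, ← Real.rpow_natCast]
    refine Real.rpow_le_rpow_of_exponent_le (by norm_num) ?_
    push_cast
    have e2 : ((m / s : ℕ) : ℝ) ≤ (m : ℝ) / s := Nat.cast_div_le
    have e3 : (m : ℝ) / s ≤ m * (δ / 2) := by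
      rw [div_eq_mul_inv]
      refine mul_le_mul_of_nonneg_left ?_ (by positivity)
      rw [inv_eq_one_div]
      have : 2 / (s : ℝ) = 2 * (1 / s) := by ring
      linarith
    nlinarith
  have h4 : (E : ℝ) ≤ C * (w : ℝ) ^ e * (2 : ℝ) ^ (m + m / s) := by exact_mod_cast hE
  calc (E : ℝ) ≤ C * (w : ℝ) ^ e * (2 : ℝ) ^ (m + m / s) := h4
    _ ≤ ((2 : ℝ) ^ m) ^ (δ / 4) * ((2 : ℝ) ^ m) ^ (δ / 4) * ((2 : ℝ) ^ m) ^ (1 + δ / 2) := by
        refine mul_le_mul (mul_le_mul h1 h2 (by positivity) (by positivity)) h3 (by positivity)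
          (by positivity)
    _ = ((2 : ℝ) ^ m) ^ (1 + δ) := by
        rw [← Real.rpow_add hn, ← Real.rpow_add hn]
        congr 1
        ring

end Pool.Agent.V11163.ZG
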