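import Pool.Agent.V11163.ZG.Fin
import Pool.Agent.TH700.PA.Count

/-!
# Every hypergraph is recognized by a network of large bond dimension
-/

set_option autoImplicit false

open Finset

namespace Pool.Agent.V11163.ZG

open Pool.Agent.TH700.PA
open Pool.Agent.H607R2.BW (Str)

theorem universal (K : Type) [Field K] {r m : ℕ} (hr : 1 ≤ r) (hm : 1 ≤ m)
    (R : (Fin r → Str m) → Prop) [Fintype {x : Fin r → Str m // R x}] :
    ∃ (T : Net K (Fin r × Fin m) Bool {x : Fin r → Str m // R x})
      (c : {x : Fin r → Str m // R x} → K), (∀ v, T.reads v ≤ 1) ∧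
      ∀ x : Fin r → Str m, T.value c (fun v => x v.1 v.2) ≠ 0 ↔ R x := by
  classical
  have : Nonempty (Fin r × Fin m) := ⟨(⟨0, hr⟩, ⟨0, hm⟩)⟩
  obtain ⟨T, -, h2, -, h4⟩ := exists_product (K := K)
    (fun (v : Fin r × Fin m) (c : Bool) (w : {x : Fin r → Str m // R x}) =>
      if w.1 v.1 v.2 = c then (1 : K) else 0)
  refine ⟨T, fun _ => 1, fun v => (h2 v).le, fun x => ?_⟩
  have h5 : ∀ w : {x : Fin r → Str m // R x}, T.eval (fun v => x v.1 v.2) w =
      if w.1 = x then 1 else 0 := by
    intro w
    rw [h4]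
    by_cases h : w.1 = x
    · rw [if_pos h]
      exact prod_eq_one fun v _ => if_pos (by rw [h])
    · rw [if_neg h]
      obtain ⟨j, hj⟩ := Function.ne_iff.1 h
      obtain ⟨i, hi⟩ := Function.ne_iff.1 hj
      exact prod_eq_zero (mem_univ (j, i)) (if_neg hi)
  unfold Net.value
  simp only [h5, one_mul]
  by_cases hx : R x
  · rw [sum_eq_single (⟨x, hx⟩ : {x : Fin r → Str m // R x})]
    · simp [hx]
    · intro w _ hw
      rw [if_neg]
      intro h
      exact hw (Subtype.ext h)
    · intro h
      exact absurd (mem_univ _) h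
  · rw [sum_eq_zero]
    · simp [hx]
    · intro w _
      rw [if_neg]
      intro h
      exact hx (h ▸ w.2)

open Classical in
/-- The ordered edges. -/
abbrev Ord {m : ℕ} (r : ℕ) (E : Finset (Finset (Str m))) : Type :=
  {x : Fin r → Str m // Function.Injective x ∧ Finset.univ.image x ∈ E}

open Classical in
/-- Every hypergraph is recognized by a network whose bond dimension is the number of the ordered edges,
`r!` times the number of the edges. -/
theorem hyper_universal (K : Type) [Field K] {r m : ℕ} (hr : 1 ≤ r) (hm : 1 ≤ m)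
    (E : Finset (Finset (Str m))) (hE : ∀ t ∈ E, t.card = r) :
    HyperNet K (Ord r E) r E ∧ Fintype.card (Ord r E) = r.factorial * E.card := by
  refine ⟨universal K hr hm _, ?_⟩
  have h := Pool.Agent.H607R2.BW.t_ORD m r E hE
  rw [← Nat.card_eq_fintype_card]
  convert h

end Pool.Agent.V11163.ZG
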